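import Pool.Agent.W540.BE.Core3
import Pool.Agent.H341R2.NF.ECCount

set_option autoImplicit false

/-!
# Elliptic curves over number fields: the Frobenius eigenvalues
-/

namespace Pool.Agent.W540.BE

open Complex Filter Topology ComplexConjugate NumberField IsDedekindDomain

/-- the number of solutions of the affine Weierstrass equation -/
noncomputable def affCount {R : Type*} [CommRing R] (V : WeierstrassCurve R) : ℕ :=
  Nat.card {P : R × R // P.2 ^ 2 + V.a₁ * P.1 * P.2 + V.a₃ * P.2 =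
    P.1 ^ 3 + V.a₂ * P.1 ^ 2 + V.a₄ * P.1 + V.a₆}

theorem hasse_field {k : Type*} [Field k] [Finite k] (h6 : (6 : k) ≠ 0) (V : WeierstrassCurve k)
    (hΔ : V.Δ ≠ 0) : |(Nat.card k : ℝ) - affCount V| ≤ 2 * Real.sqrt (Nat.card k) := by
  classical
  letI : Fintype k := Fintype.ofFinite k
  have h1 : affCount V = H341R2.EC.short V.c₄ V.c₆ := H341R2.EC.aff_eq_short h6 V
  have h2 := H341R2.EC.short_eq h6 V.c₄ V.c₆
  have h2' : (H341R2.EC.short V.c₄ V.c₆ : ℤ) = Fintype.card k + H341R2.EC.csum V.c₄ V.c₆ := h2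
  have h3 : V.c₄ ^ 3 - V.c₆ ^ 2 ≠ 0 := by
    have h4 := V.c_relation
    rw [← h4]
    have h5 : (1728 : k) ≠ 0 := by
      have : (1728 : k) = 6 ^ 3 * 8 := by norm_num
      rw [this]
      have h8 : (8 : k) ≠ 0 := by
        intro h
        apply h6
        have h2 : (2 : k) = 0 := by
          have : (2 : k) ^ 3 = 0 := by
            rw [← h]; norm_num
          exact pow_eq_zero_iff (n := 3) (by norm_num) |>.1 this
        have : (6 : k) = 3 * 2 := by norm_num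
        rw [this, h2, mul_zero]
      exact mul_ne_zero (pow_ne_zero _ h6) h8
    exact mul_ne_zero h5 hΔ
  have h4 := H341R2.EC.csum_bound h6 h3
  rw [Nat.card_eq_fintype_card, h1]
  have h5 : (H341R2.EC.short V.c₄ V.c₆ : ℝ) = Fintype.card k + H341R2.EC.csum V.c₄ V.c₆ := by
    exact_mod_cast h2'
  rw [h5, sub_add_cancel_left, abs_neg]
  exact h4

theorem exists_roots {a q : ℝ} (hq : 0 < q) (h : |a| ≤ 2 * Real.sqrt q) :
    ∃ α : Fin 2 → ℂ, (∀ j, ‖α j‖ = q ^ (1 / 2 : ℝ)) ∧ α 0 + α 1 = a ∧ α 0 * α 1 = q := by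
  have h1 : a ^ 2 ≤ 4 * q := by
    have h2 : |a| ^ 2 ≤ (2 * Real.sqrt q) ^ 2 := pow_le_pow_left₀ (abs_nonneg _) h 2
    rw [sq_abs, mul_pow, Real.sq_sqrt hq.le] at h2
    linarith
  set s : ℝ := Real.sqrt (4 * q - a ^ 2) with hs
  have hs2 : s ^ 2 = 4 * q - a ^ 2 := Real.sq_sqrt (by linarith)
  set z : ℂ := ⟨a / 2, s / 2⟩ with hz
  have hns : Complex.normSq z = q := by
    rw [Complex.normSq_apply, hz]
    simp only
    nlinarith
  have hnorm : ‖z‖ = q ^ (1 / 2 : ℝ) := by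
    rw [← Real.sqrt_eq_rpow, ← hns, Complex.norm_def]
  refine ⟨![z, conj z], fun j => ?_, ?_, ?_⟩
  · fin_cases j
    · exact hnorm
    · change ‖conj z‖ = _
      rw [Complex.norm_conj]
      exact hnorm
  · change z + conj z = a
    rw [Complex.add_conj, hz]
    push_cast
    ring
  · change z * conj z = q
    rw [Complex.mul_conj, hns]

theorem det_two {n : ℕ} (A : Module.End ℂ (Fin n → ℂ)) (α : Fin 2 → ℂ) (z : ℂ) :
    ∏ j, LinearMap.det (1 - (α j * z) • A) =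
      LinearMap.det (1 - ((α 0 + α 1) * z) • A + (α 0 * α 1 * z ^ 2) • A ^ 2) := by
  rw [Fin.prod_univ_two, ← map_mul]
  congr 1
  rw [sub_mul, mul_sub, mul_sub, one_mul, one_mul, mul_one, smul_mul_smul_comm, ← sq A,
    add_mul, add_smul]
  have : α 0 * z * (α 1 * z) = α 0 * α 1 * z ^ 2 := by ring
  rw [this]
  abel

theorem finite_mem_prime {F : Type} [Field F] [NumberField F] {x : 𝓞 F} (hx : x ≠ 0) :
    {v : HeightOneSpectrum (𝓞 F) | x ∈ v.asIdeal}.Finite := by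
  have h1 : Ideal.span {x} ≠ 0 := by
    rw [Ne, Ideal.zero_eq_bot, Ideal.span_singleton_eq_bot]
    exact hx
  refine (Ideal.finite_factors h1).subset fun v hv => ?_
  rw [Set.mem_ofPred_eq, Ideal.dvd_span_singleton]
  exact hv

/-- the reduction of an integral Weierstrass equation -/
noncomputable def redv {F : Type} [Field F] (W : WeierstrassCurve (𝓞 F))
    (v : HeightOneSpectrum (𝓞 F)) : WeierstrassCurve (𝓞 F ⧸ v.asIdeal) :=
  W.map (Ideal.Quotient.mk v.asIdeal)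

/-- the trace of Frobenius `q_v + 1 - #E(k_v)` -/
noncomputable def trv {F : Type} [Field F] [NumberField F] (W : WeierstrassCurve (𝓞 F))
    (v : HeightOneSpectrum (𝓞 F)) : ℤ :=
  (Ideal.absNorm v.asIdeal : ℤ) + 1 - ((affCount (redv W v) : ℤ) + 1)

theorem hasse_v {F : Type} [Field F] [NumberField F] (W : WeierstrassCurve (𝓞 F))
    (v : HeightOneSpectrum (𝓞 F)) (h6 : (6 : 𝓞 F) ∉ v.asIdeal) (hΔ : W.Δ ∉ v.asIdeal) :
    |(trv W v : ℝ)| ≤ 2 * Real.sqrt (nm F v) := by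
  have hmax : v.asIdeal.IsMaximal := v.isMaximal
  letI := Ideal.Quotient.field v.asIdeal
  have hfin : Finite (𝓞 F ⧸ v.asIdeal) := Ideal.finiteQuotientOfFreeOfNeBot _ v.ne_bot
  have hcard : Nat.card (𝓞 F ⧸ v.asIdeal) = nm F v := by
    rw [nm, Ideal.absNorm_apply, Submodule.cardQuot_apply]
  have h1 : (6 : 𝓞 F ⧸ v.asIdeal) ≠ 0 := by
    intro h
    apply h6
    rw [← Ideal.Quotient.eq_zero_iff_mem, map_ofNat]
    exact h
  have h2 : (redv W v).Δ ≠ 0 := by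
    intro h
    apply hΔ
    rw [← Ideal.Quotient.eq_zero_iff_mem, ← h, redv, WeierstrassCurve.map_Δ]
  have h3 := hasse_field h1 (redv W v) h2
  rw [hcard] at h3
  have h4 : (trv W v : ℝ) = (nm F v : ℝ) - affCount (redv W v) := by
    rw [trv, nm]
    push_cast
    ring
  rw [h4]
  exact h3

/-- The Gram inequality on the edge for all Artin twists of an elliptic curve. -/
theorem ec_main (F : Type) [Field F] [NumberField F] (W : WeierstrassCurve (𝓞 F)) (hΔ : W.Δ ≠ 0)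
    {κ : Type*} (K : Finset κ) (n : κ → ℕ)
    (ρ : ∀ k, Representation ℂ (W401.Cheb.GK F) (Fin (n k) → ℂ))
    (B : κ → HeightOneSpectrum (𝓞 F) → Polynomial ℂ)
    (hB : ∀ k ∈ K, ∀ᶠ v in cofinite, ∀ σ : W401.Cheb.GK F, W401.Cheb.IsFrob v σ → ∀ z : ℂ,
      (B k v).eval z = LinearMap.det (1 - ((trv W v : ℂ) * z) • ρ k σ⁻¹ +
        (((nm F v : ℕ) : ℂ) * z ^ 2) • (ρ k σ⁻¹) ^ 2)) :
    ∃ α : HeightOneSpectrum (𝓞 F) → Fin 2 → ℂ,
      (∀ᶠ v in cofinite, ∀ j, ‖α v j‖ = (nm F v : ℝ) ^ (1 / 2 : ℝ)) ∧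
      ∀ k ∈ K, ∀ᶠ v in cofinite, ∀ σ : W401.Cheb.GK F, W401.Cheb.IsFrob v σ → ∀ z : ℂ,
        (B k v).eval z = ∏ j, LinearMap.det (1 - (α v j * z) • ρ k σ⁻¹) := by
  have h6 : (6 : 𝓞 F) ≠ 0 := by norm_num
  have hgood : ∀ᶠ v : HeightOneSpectrum (𝓞 F) in cofinite,
      (6 : 𝓞 F) ∉ v.asIdeal ∧ W.Δ ∉ v.asIdeal := by
    rw [Filter.eventually_cofinite]
    refine ((finite_mem_prime h6).union (finite_mem_prime hΔ)).subset fun v hv => ?_
    rw [Set.mem_ofPred_eq, not_and_or, not_not, not_not] at hv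
    exact hv
  have hex : ∀ v : HeightOneSpectrum (𝓞 F), ∃ α : Fin 2 → ℂ,
      ((6 : 𝓞 F) ∉ v.asIdeal ∧ W.Δ ∉ v.asIdeal) →
        (∀ j, ‖α j‖ = (nm F v : ℝ) ^ (1 / 2 : ℝ)) ∧ α 0 + α 1 = (trv W v : ℂ) ∧
          α 0 * α 1 = ((nm F v : ℕ) : ℂ) := by
    intro v
    by_cases h : (6 : 𝓞 F) ∉ v.asIdeal ∧ W.Δ ∉ v.asIdeal
    · have hpos : (0 : ℝ) < nm F v := by
        have := two_le_nm v
        exact_mod_cast (by omega : 0 < nm F v)
      obtain ⟨α, h1, h2, h3⟩ := exists_roots hpos (hasse_v W v h.1 h.2)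
      refine ⟨α, fun _ => ⟨h1, ?_, ?_⟩⟩
      · rw [h2]; simp
      · rw [h3]; simp
    · exact ⟨0, fun h' => absurd h' h⟩
  choose α hα using hex
  refine ⟨α, hgood.mono fun v hv => (hα v hv).1, fun k hk => ?_⟩
  filter_upwards [hgood, hB k hk] with v h1 h2
  intro σ hσ z
  rw [det_two, (hα v h1).2.1, (hα v h1).2.2]
  exact h2 σ hσ z

end Pool.Agent.W540.BE
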