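import Pool.Agent.W540.BE.Core
import Pool.Agent.W540.BE.Size

set_option autoImplicit false

/-!
# The Gram inequality on the edge for all Artin twists over a number field
-/

namespace Pool.Agent.W540.BE

open Complex Filter Topology ComplexConjugate Pool.Agent.H341R2 NumberField IsDedekindDomain
  Pool.Agent.W401.Cheb Polynomial

/-- the intertwining maps of the two representations of the quotient -/
theorem finrank_qrep {G : Type*} [Group G] (U : Subgroup G) [U.Normal]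
    {V W : Type*} [AddCommGroup V] [Module ℂ V] [AddCommGroup W] [Module ℂ W]
    (ρ : Representation ℂ G V) (h : ∀ u ∈ U, ρ u = 1)
    (σ : Representation ℂ G W) (h' : ∀ u ∈ U, σ u = 1) :
    Module.finrank ℂ ((qrep U ρ h).IntertwiningMap (qrep U σ h')) =
      Module.finrank ℂ (ρ.IntertwiningMap σ) := by
  refine LinearEquiv.finrank_eq
    { toFun := fun f => ⟨f.toLinearMap, fun g => f.isIntertwining' (QuotientGroup.mk g)⟩
      invFun := fun f => ⟨f.toLinearMap, fun g => by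
        obtain ⟨g, rfl⟩ := QuotientGroup.mk_surjective g
        exact f.isIntertwining' g⟩
      left_inv := fun f => rfl
      right_inv := fun f => rfl
      map_add' := fun f g => rfl
      map_smul' := fun c f => rfl }

/-- the mean value of the product of two characters -/
theorem ortho2 {G : Type*} [Group G] (U : Subgroup G) [U.Normal] [Finite (G ⧸ U)] {n n' : ℕ}
    (ρ : Representation ℂ G (Fin n → ℂ)) (h : ∀ u ∈ U, ρ u = 1)
    (σ : Representation ℂ G (Fin n' → ℂ)) (h' : ∀ u ∈ U, σ u = 1) :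
    (Nat.card (G ⧸ U) : ℂ)⁻¹ * ∑ᶠ q : G ⧸ U, (qrep U ρ h).character q *
      (qrep U σ h').character q⁻¹ = (Module.finrank ℂ (σ.IntertwiningMap ρ) : ℂ) := by
  classical
  letI : Fintype (G ⧸ U) := Fintype.ofFinite _
  have hne : (Nat.card (G ⧸ U) : ℂ) ≠ 0 := by
    have : Nat.card (G ⧸ U) ≠ 0 := Nat.card_pos.ne'
    exact_mod_cast this
  letI : Invertible (Nat.card (G ⧸ U) : ℂ) := invertibleOfNonzero hne
  have h1 := Representation.card_inv_mul_sum_char_mul_char_eq_finrank (qrep U σ h') (qrep U ρ h)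
  rw [finsum_eq_sum_of_fintype, h1, finrank_qrep]

/-- **The Gram inequality on the edge, for all Artin twists over a number field.** -/
theorem core2 (F : Type) [Field F] [NumberField F] (b : ℕ) (w : ℝ)
    (α : HeightOneSpectrum (𝓞 F) → Fin b → ℂ)
    (hα : ∀ᶠ v in cofinite, ∀ j, ‖α v j‖ = (nm F v : ℝ) ^ w)
    {κ : Type*} (K : Finset κ) (n : κ → ℕ)
    (ρ : ∀ k, Representation ℂ (GK F) (Fin (n k) → ℂ))
    (hopen : ∀ k ∈ K, ∃ U : Subgroup (GK F), IsOpen (U : Set (GK F)) ∧ ∀ u ∈ U, ρ k u = 1)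
    (τ : κ → ℝ)
    (B : κ → HeightOneSpectrum (𝓞 F) → ℂ[X])
    (hB : ∀ k ∈ K, ∀ᶠ v in cofinite, ∀ σ : GK F, IsFrob v σ → ∀ z : ℂ,
      (B k v).eval z = ∏ j, LinearMap.det (1 - (α v j * z) • ρ k σ⁻¹))
    (hB0 : ∀ k ∈ K, ∀ v, (B k v).eval (((nm F v : ℕ) : ℂ) ^ (-(w + 1 + τ k * I : ℂ))) ≠ 0)
    (L : κ → ℂ → ℂ)
    (hL : ∀ k ∈ K, ∀ s : ℂ, w + 1 < s.re →
      L k s = ∏' v, ((B k v).eval (((nm F v : ℕ) : ℂ) ^ (-s)))⁻¹) :
    (∀ k ∈ K, ∀ᶠ ε : ℝ in 𝓝[>] 0, L k (w + 1 + τ k * I + ε) ≠ 0) ∧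
    (∃ C0 : ℝ, ∀ k ∈ K, ∀ᶠ ε : ℝ in 𝓝[>] 0,
      |Real.log ‖L k (w + 1 + τ k * I + ε)‖ / Real.log (1 / ε)| ≤ C0) ∧
    ∀ C η : ℝ, 0 < η → ∀ᶠ ε : ℝ in 𝓝[>] 0, ∀ c : κ → ℝ, (∀ k ∈ K, |c k| ≤ C) →
      (∑ k ∈ K, c k * (Real.log ‖L k (w + 1 + τ k * I + ε)‖ / Real.log (1 / ε))) ^ 2 ≤
        (b : ℝ) ^ 2 * (∑ k ∈ K, ∑ l ∈ K, (c k * c l) * (if τ k = τ l then
          (Module.finrank ℂ ((ρ k).IntertwiningMap (ρ l)) : ℝ) else 0)) + η := by
  classical
  -- a common open normal subgroup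
  set Φ : GK F →* (∀ k : K, Module.End ℂ (Fin (n k) → ℂ)) := MonoidHom.pi fun k : K => ρ k with hΦ
  set U : Subgroup (GK F) := Φ.ker with hU
  have hUmem : ∀ g : GK F, g ∈ U ↔ ∀ k ∈ K, ρ k g = 1 := by
    intro g
    rw [hU, MonoidHom.mem_ker, funext_iff]
    exact ⟨fun h k hk => h ⟨k, hk⟩, fun h k => h k.1 k.2⟩
  have hkeropen : ∀ k ∈ K, IsOpen {g : GK F | ρ k g = 1} := by
    intro k hk
    obtain ⟨V, hV, hVρ⟩ := hopen k hk
    have h1 : V ≤ (ρ k).ker := fun u hu => hVρ u hu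
    exact Subgroup.isOpen_mono h1 hV
  have hUopen : IsOpen (U : Set (GK F)) := by
    have : (U : Set (GK F)) = ⋂ k ∈ K, {g : GK F | ρ k g = 1} := by
      ext g
      rw [SetLike.mem_coe, hUmem, Set.mem_iInter₂]
      rfl
    rw [this]
    exact isOpen_biInter_finset hkeropen
  have hfinQ : Finite (GK F ⧸ U) := Subgroup.quotient_finite_of_isOpen U hUopen
  have hUρ : ∀ k ∈ K, ∀ u ∈ U, ρ k u = 1 := fun k hk u hu => (hUmem u).1 hu k hk
  choose σ hσ using exists_isFrob (F := F)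
  have hN : NormSys (nm F) := normSys
  have hpos : ∀ v, 0 < nm F v := fun v => by
    have := two_le_nm v
    omega
  obtain ⟨p0⟩ : Nonempty (HeightOneSpectrum (𝓞 F)) := by
    obtain ⟨M, hM⟩ := Ideal.exists_maximal (𝓞 F)
    exact ⟨⟨M, hM.isPrime, Ring.ne_bot_of_isMaximal_of_not_isField hM
      (RingOfIntegers.not_isField F)⟩⟩
  -- the vectors
  set t : HeightOneSpectrum (𝓞 F) → ℂ := fun v =>
    if ∀ j, ‖α v j‖ = (nm F v : ℝ) ^ w then (∑ j, α v j) * ((nm F v : ℕ) : ℂ) ^ (-(w : ℂ)) else 0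
    with ht
  have htb : ∀ v, ‖t v‖ ≤ b := by
    intro v
    rw [ht]
    simp only
    split_ifs with h
    · rw [norm_mul, Complex.norm_natCast_cpow_of_pos (hpos v)]
      have h1 : ‖∑ j, α v j‖ ≤ b * (nm F v : ℝ) ^ w := by
        refine (norm_sum_le _ _).trans ?_
        rw [Finset.sum_congr rfl fun j _ => h j, Finset.sum_const, Finset.card_univ,
          Fintype.card_fin, nsmul_eq_mul]
      have h2 : (nm F v : ℝ) ^ w * (nm F v : ℝ) ^ (-(w : ℂ)).re = 1 := by
        have h0 : (0 : ℝ) < nm F v := by exact_mod_cast hpos v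
        rw [← Real.rpow_add h0]
        simp
      calc ‖∑ j, α v j‖ * (nm F v : ℝ) ^ (-(w : ℂ)).re
          ≤ b * (nm F v : ℝ) ^ w * (nm F v : ℝ) ^ (-(w : ℂ)).re :=
            mul_le_mul_of_nonneg_right h1 (by positivity)
        _ = b := by rw [mul_assoc, h2, mul_one]
    · rw [norm_zero]
      positivity
  set vv : κ → HeightOneSpectrum (𝓞 F) → ℂ := fun k v =>
    if k ∈ K then conj (((nm F v : ℕ) : ℂ) ^ (-(τ k * I)) * (ρ k).character (σ v)⁻¹) else 0
    with hvv
  have hvvb : ∀ k v, ‖vv k v‖ ≤ n k := by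
    intro k v
    rw [hvv]
    simp only
    split_ifs with h
    · rw [Complex.norm_conj, norm_mul, norm_cpow_I (hpos v), one_mul]
      exact norm_char_le U (ρ k) (hUρ k h) _
    · rw [norm_zero]
      positivity
  -- the Gram matrix
  have horth0 : ∀ k ∈ K, ∀ l ∈ K,
      Tendsto (fun ε : ℝ => (EP (nm F) ε fun v => (vv k v * conj (vv l v)).re) / lam ε) (𝓝[>] 0)
        (𝓝 (if τ k = τ l then
          (Module.finrank ℂ ((ρ l).IntertwiningMap (ρ k)) : ℝ) else 0)) := by
    intro k hk l hl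
    set ψ : GK F ⧸ U → ℂ := fun q => (qrep U (ρ k) (hUρ k hk)).character q *
      (qrep U (ρ l) (hUρ l hl)).character q⁻¹ with hψ
    have hψc : ∀ a g, ψ (g * a * g⁻¹) = ψ a := by
      intro a g
      rw [hψ]
      simp only
      have h1 : (g * a * g⁻¹)⁻¹ = g * a⁻¹ * g⁻¹ := by group
      rw [h1, Representation.char_conj, Representation.char_conj]
    have h1 := cheb_mean (F := F) U hUopen ψ hψc σ hσ
    have h2 := ortho2 U (ρ k) (hUρ k hk) (ρ l) (hUρ l hl)
    rw [h2] at h1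
    have h3 : ((Module.finrank ℂ ((ρ l).IntertwiningMap (ρ k)) : ℕ) : ℂ) =
        (((Module.finrank ℂ ((ρ l).IntertwiningMap (ρ k)) : ℕ) : ℝ) : ℂ) := by simp
    rw [h3] at h1
    have hψv : ∀ v, ψ (QuotientGroup.mk (σ v)) =
        (ρ k).character (σ v) * (ρ l).character (σ v)⁻¹ := fun v => rfl
    have h4 := mean_edge (g := fun v => ψ (QuotientGroup.mk (σ v))) (B := (n k : ℝ) * n l)
      (by
        intro v
        rw [hψv, norm_mul]
        exact mul_le_mul (norm_char_le U (ρ k) (hUρ k hk) _) (norm_char_le U (ρ l) (hUρ l hl) _)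
          (norm_nonneg _) (by positivity)) _ h1 (τ l - τ k)
    have h6 : (if τ l - τ k = 0 then
        (((Module.finrank ℂ ((ρ l).IntertwiningMap (ρ k)) : ℕ) : ℝ)) else 0) =
        (if τ k = τ l then (Module.finrank ℂ ((ρ l).IntertwiningMap (ρ k)) : ℝ) else 0) := by
      have : τ l - τ k = 0 ↔ τ k = τ l := ⟨fun h => by linarith, fun h => by linarith⟩
      simp only [this]
    rw [h6] at h4
    refine h4.congr fun ε => ?_
    congr 2
    funext v
    congr 1
    rw [hψv, hvv]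
    simp only
    rw [if_pos hk, if_pos hl, Complex.conj_conj, map_mul, conj_cpow_I (hpos v),
      char_conj_eq U (ρ k) (hUρ k hk)]
    have hvc : ((nm F v : ℕ) : ℂ) ≠ 0 := by
      have := hpos v
      exact_mod_cast this.ne'
    have h5 : ((nm F v : ℕ) : ℂ) ^ (-(((τ l - τ k : ℝ) : ℂ) * I)) =
        ((nm F v : ℕ) : ℂ) ^ (τ k * I) * ((nm F v : ℕ) : ℂ) ^ (-(τ l * I)) := by
      rw [← Complex.cpow_add _ _ hvc]
      congr 1
      push_cast
      ring
    rw [h5]
    ring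
  -- bound for the correlations
  have hcorrb : ∀ k, ∀ ε : ℝ, 0 < ε → |EP (nm F) ε fun v => (t v * conj (vv k v)).re| ≤
      (b * n k : ℝ) * EP (nm F) ε fun _ => 1 := by
    intro k ε hε
    have hb1 : ∀ v, |(t v * conj (vv k v)).re| ≤ b * n k := by
      intro v
      refine (Complex.abs_re_le_norm _).trans ?_
      rw [norm_mul, Complex.norm_conj]
      exact mul_le_mul (htb v) (hvvb k v) (norm_nonneg _) (by positivity)
    rw [abs_le]
    constructor
    · have h7 := EP_le hN hε (φ := fun v => (-1) * (t v * conj (vv k v)).re) (B := b * n k)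
        (fun v => by rw [abs_mul, abs_neg, abs_one, one_mul]; exact hb1 v) (b := b * n k)
        (fun v => by have := (abs_le.1 (hb1 v)).1; linarith)
      rw [EP_const_mul] at h7
      linarith
    · exact EP_le hN hε hb1 fun v => (le_abs_self _).trans (hb1 v)
  -- the sizes
  have hk1 : ∀ k ∈ K, ∃ C' : ℝ, ∀ᶠ ε : ℝ in 𝓝[>] 0, L k (w + 1 + τ k * I + ε) ≠ 0 ∧
      |(EP (nm F) ε fun v => (t v * conj (vv k v)).re) -
        Real.log ‖L k (w + 1 + τ k * I + ε)‖| ≤ C' := by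
    intro k hk
    set Good : HeightOneSpectrum (𝓞 F) → Prop := fun v => (∀ j, ‖α v j‖ = (nm F v : ℝ) ^ w) ∧
      ∀ σ : GK F, IsFrob v σ → ∀ z : ℂ,
        (B k v).eval z = ∏ j, LinearMap.det (1 - (α v j * z) • ρ k σ⁻¹) with hGood
    have hfin : {v | ¬ Good v}.Finite := by
      have := hα.and (hB k hk)
      rwa [Filter.eventually_cofinite] at this
    have hGex : ∀ (ε : ℝ) (v : HeightOneSpectrum (𝓞 F)), ∃ G : ℂ, 0 < ε → Good v →
        cexp G = ((B k v).eval (((nm F v : ℕ) : ℂ) ^ (-(w + 1 + τ k * I + ε : ℂ))))⁻¹ ∧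
        ‖G - (t v * conj (vv k v)) * ((nm F v : ℝ) ^ (-(1 + ε)) : ℝ)‖ ≤
          (b * n k : ℝ) * (nm F v : ℝ) ^ (-2 : ℝ) := by
      intro ε v
      by_cases h : 0 < ε ∧ Good v
      · obtain ⟨G, hG1, hG2⟩ := local_factor w (nm F v) (two_le_nm v) (α v) h.2.1
          (ρ k (σ v)⁻¹) (m := Nat.card (GK F ⧸ U)) Nat.card_pos
          (rho_pow U (ρ k) (hUρ k hk) _) (τ k) ε h.1
        refine ⟨G, fun _ _ => ⟨?_, ?_⟩⟩
        · rw [hG1, h.2.2 (σ v) (hσ v)]
        · have h1 : t v = (∑ j, α v j) * ((nm F v : ℕ) : ℂ) ^ (-(w : ℂ)) := by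
            rw [ht]
            simp only
            rw [if_pos h.2.1]
          have h2 : conj (vv k v) = ((nm F v : ℕ) : ℂ) ^ (-(τ k * I)) *
              (ρ k).character (σ v)⁻¹ := by
            rw [hvv]
            simp only
            rw [if_pos hk, Complex.conj_conj]
          rw [h1, h2]
          exact hG2
      · exact ⟨0, fun h1 h2 => absurd ⟨h1, h2⟩ h⟩
    choose G hG using hGex
    set a : HeightOneSpectrum (𝓞 F) → ℂ := fun v => if Good v then t v * conj (vv k v) else 0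
      with ha
    have hprod : ∀ v, ‖t v * conj (vv k v)‖ ≤ b * n k := by
      intro v
      rw [norm_mul, Complex.norm_conj]
      exact mul_le_mul (htb v) (hvvb k v) (norm_nonneg _) (by positivity)
    have hab : ∀ v, ‖a v‖ ≤ b * n k := by
      intro v
      rw [ha]
      simp only
      split_ifs
      · exact hprod v
      · rw [norm_zero]; positivity
    have ha0 : ∀ v, ¬ Good v → a v = 0 := by
      intro v hv
      rw [ha]
      simp only
      rw [if_neg hv]
    obtain ⟨C', hC'⟩ := sizeP hN (Good := Good) hfin (B k) (w + 1 + τ k * I)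
      (fun v _ => hB0 k hk v) a hab ha0 G (C := (b * n k : ℝ))
      (by
        intro ε hε v hv
        have h1 : a v = t v * conj (vv k v) := by
          rw [ha]
          simp only
          rw [if_pos hv]
        rw [h1]
        exact (hG ε v hε hv).2)
      (L := fun ε => L k (w + 1 + τ k * I + ε))
      (by
        intro ε hε
        rw [hL k hk _ (by simp [hε])]
        refine tprod_congr fun v => ?_
        split_ifs with hv
        · rw [(hG ε v hε hv).1]
        · rfl)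
    -- the mean value of the coefficients
    set r : HeightOneSpectrum (𝓞 F) → ℝ := fun v => (t v * conj (vv k v)).re - (a v).re with hr
    have hr0 : ∀ v, v ∉ hfin.toFinset → r v = 0 := by
      intro v hv
      rw [Set.Finite.mem_toFinset, Set.mem_ofPred_eq, not_not] at hv
      rw [hr, ha]
      simp only
      rw [if_pos hv, sub_self]
    have hrb : ∀ v, |r v| ≤ 2 * (b * n k) := by
      intro v
      rw [hr]
      simp only
      have h1 : |(t v * conj (vv k v)).re| ≤ b * n k := (Complex.abs_re_le_norm _).trans (hprod v)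
      have h2 : |(a v).re| ≤ b * n k := (Complex.abs_re_le_norm _).trans (hab v)
      rw [abs_le] at *
      constructor <;> linarith [h1.1, h1.2, h2.1, h2.2]
    have hsplit : ∀ ε : ℝ, 0 < ε → (EP (nm F) ε fun v => (t v * conj (vv k v)).re) =
        (EP (nm F) ε fun v => (a v).re) + EP (nm F) ε r := by
      intro ε hε
      rw [← EP_add hN hε (B := b * n k) (B' := 2 * (b * n k))
        (fun v => (Complex.abs_re_le_norm _).trans (hab v)) hrb]
      congr 1
      funext v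
      rw [hr]
      ring
    refine ⟨C' + hfin.toFinset.card * (2 * (b * n k)), ?_⟩
    filter_upwards [hC', self_mem_nhdsWithin] with ε h1 h2
    have hε : (0 : ℝ) < ε := h2
    refine ⟨h1.1, ?_⟩
    rw [hsplit ε hε]
    have h4 := EP_finsupp hN hfin.toFinset r hr0 _ hrb hε
    have h5 : (EP (nm F) ε fun v => (a v).re) + EP (nm F) ε r -
        Real.log ‖L k (w + 1 + τ k * I + ε)‖ =
        ((EP (nm F) ε fun v => (a v).re) - Real.log ‖L k (w + 1 + τ k * I + ε)‖) +
          EP (nm F) ε r := by ring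
    rw [h5]
    exact (abs_add_le _ _).trans (add_le_add h1.2 h4)
  have hEP1 : ∀ᶠ ε : ℝ in 𝓝[>] 0, (EP (nm F) ε fun _ => 1) ≤ 2 * lam ε := by
    filter_upwards [(EP_one F).eventually_lt_const (by norm_num : (1 : ℝ) < 2),
      lam_tendsto.eventually_gt_atTop 0] with ε h1 h2
    rw [div_lt_iff₀ h2] at h1
    exact h1.le
  have hylam : ∀ k, ∀ᶠ ε : ℝ in 𝓝[>] 0,
      |EP (nm F) ε fun v => (t v * conj (vv k v)).re| ≤ (2 * (b * n k) : ℝ) * lam ε := by
    intro k
    filter_upwards [hEP1, self_mem_nhdsWithin] with ε h1 h2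
    refine (hcorrb k ε h2).trans ?_
    calc (b * n k : ℝ) * EP (nm F) ε (fun _ => 1) ≤ (b * n k : ℝ) * (2 * lam ε) :=
          mul_le_mul_of_nonneg_left h1 (by positivity)
      _ = _ := by ring
  have hx : ∀ k ∈ K, Tendsto (fun ε : ℝ =>
      (EP (nm F) ε fun v => (t v * conj (vv k v)).re) / lam ε -
        Real.log ‖L k (w + 1 + τ k * I + ε)‖ / Real.log (1 / ε)) (𝓝[>] 0) (𝓝 0) := by
    intro k hk
    obtain ⟨C', hC'⟩ := hk1 k hk
    exact size_compare (hylam k) (hC'.mono fun _ h => h.2)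
  refine ⟨fun k hk => ?_, ?_, ?_⟩
  · obtain ⟨C', hC'⟩ := hk1 k hk
    exact hC'.mono fun _ h => h.1
  · refine ⟨(∑ k ∈ K, 2 * (b * n k : ℝ)) + 1, fun k hk => ?_⟩
    have h0 := (Metric.tendsto_nhds.1 (hx k hk)) 1 one_pos
    filter_upwards [hylam k, h0, lam_tendsto.eventually_gt_atTop 0] with ε h1 h2 h3
    rw [Real.dist_eq, sub_zero] at h2
    have h4 : |(EP (nm F) ε fun v => (t v * conj (vv k v)).re) / lam ε| ≤ 2 * (b * n k) := by
      rw [abs_div, abs_of_pos h3, div_le_iff₀ h3]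
      exact h1
    have h5 : 2 * (b * n k : ℝ) ≤ ∑ k ∈ K, 2 * (b * n k : ℝ) :=
      Finset.single_le_sum (f := fun k => 2 * (b * n k : ℝ)) (fun k _ => by positivity) hk
    have h6 := abs_sub_abs_le_abs_sub (Real.log ‖L k (w + 1 + τ k * I + ε)‖ / Real.log (1 / ε))
      ((EP (nm F) ε fun v => (t v * conj (vv k v)).re) / lam ε)
    rw [abs_sub_comm] at h6
    linarith
  · intro C η hη
    have h1 := gramP hN p0 (EP_one F) K t vv b htb (fun k => (n k : ℝ)) hvvb
      (fun k l => if τ k = τ l then (Module.finrank ℂ ((ρ l).IntertwiningMap (ρ k)) : ℝ) else 0)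
      horth0 (fun k ε => Real.log ‖L k (w + 1 + τ k * I + ε)‖ / Real.log (1 / ε)) hx C hη
    filter_upwards [h1] with ε h2
    intro c hc
    refine (h2 c hc).trans (le_of_eq ?_)
    congr 2
    rw [Finset.sum_comm]
    refine Finset.sum_congr rfl fun k _ => Finset.sum_congr rfl fun l _ => ?_
    rw [mul_comm (c l) (c k)]
    simp only [eq_comm (a := τ l)]

/-- the consequences of the Gram inequality for pairwise disjoint representations -/
theorem disjoint_of_gram {κ : Type*} (K : Finset κ) (g : κ → κ → ℝ) (b : ℝ) (x : κ → ℝ → ℝ)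
    (hg0 : ∀ k ∈ K, ∀ l ∈ K, k ≠ l → g k l = 0) (hg1 : ∀ k ∈ K, g k k = 0 ∨ 1 ≤ g k k)
    {C0 : ℝ} (hx : ∀ k ∈ K, ∀ᶠ ε : ℝ in 𝓝[>] 0, |x k ε| ≤ C0)
    (h : ∀ C η : ℝ, 0 < η → ∀ᶠ ε : ℝ in 𝓝[>] 0, ∀ c : κ → ℝ, (∀ k ∈ K, |c k| ≤ C) →
      (∑ k ∈ K, c k * x k ε) ^ 2 ≤ b ^ 2 * (∑ k ∈ K, ∑ l ∈ K, (c k * c l) * g k l) + η)
    {η : ℝ} (hη : 0 < η) :
    ∀ᶠ ε : ℝ in 𝓝[>] 0, ∑ k ∈ K, x k ε ^ 2 / g k k ≤ b ^ 2 + η := by
  classical
  have hx' : ∀ᶠ ε : ℝ in 𝓝[>] 0, ∀ k ∈ K, |x k ε| ≤ C0 := by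
    rw [Filter.eventually_all_finset]
    exact hx
  filter_upwards [hx', h (|C0|) (η ^ 2) (by positivity)] with ε h1 h2
  have h3 := h2 (fun k => x k ε / g k k) (fun k hk => by
    rw [abs_div]
    rcases hg1 k hk with h4 | h4
    · rw [h4, abs_zero, div_zero]
      exact abs_nonneg _
    · rw [abs_of_pos (lt_of_lt_of_le one_pos h4)]
      calc |x k ε| / g k k ≤ |x k ε| / 1 :=
            div_le_div_of_nonneg_left (abs_nonneg _) one_pos h4
        _ ≤ |C0| := by rw [div_one]; exact (h1 k hk).trans (le_abs_self _))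
  set S := ∑ k ∈ K, x k ε ^ 2 / g k k with hS
  have e1 : ∑ k ∈ K, x k ε / g k k * x k ε = S :=
    Finset.sum_congr rfl fun k _ => by ring
  have e2 : ∑ k ∈ K, ∑ l ∈ K, (x k ε / g k k * (x l ε / g l l)) * g k l = S := by
    refine Finset.sum_congr rfl fun k hk => ?_
    rw [Finset.sum_eq_single_of_mem k hk (fun l hl hlk => by
      rw [hg0 k hk l hl (Ne.symm hlk), mul_zero])]
    rcases hg1 k hk with h4 | h4
    · rw [h4]
      simp
    · have : g k k ≠ 0 := by linarith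
      field_simp
  rw [e1, e2] at h3
  by_contra hcon
  push Not at hcon
  have h5 : 0 ≤ b ^ 2 := sq_nonneg b
  nlinarith

end Pool.Agent.W540.BE
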