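import Pool.Agent.W540.BE.Quot
import Pool.Agent.H341R2.TwoSided

set_option autoImplicit false

/-!
# Local factors
-/

namespace Pool.Agent.W540.BE

open Complex Filter Topology ComplexConjugate Pool.Agent.H341R2

/-- the logarithm of a local factor -/
theorem local_factor {n b : ℕ} (w : ℝ) (q : ℕ) (hq : 2 ≤ q) (α : Fin b → ℂ)
    (hα : ∀ j, ‖α j‖ = (q : ℝ) ^ w) (A : Module.End ℂ (Fin n → ℂ)) {m : ℕ} (hm : 0 < m)
    (hA : A ^ m = 1) (τ ε : ℝ) (hε : 0 < ε) :
    ∃ G : ℂ, cexp G = (∏ j, LinearMap.det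
        (1 - (α j * (q : ℂ) ^ (-(w + 1 + τ * I + ε : ℂ))) • A))⁻¹ ∧
      ‖G - ((∑ j, α j) * (q : ℂ) ^ (-(w : ℂ)) * ((q : ℂ) ^ (-(τ * I)) * LinearMap.trace ℂ _ A)) *
        ((q : ℝ) ^ (-(1 + ε)) : ℝ)‖ ≤ (b * n : ℝ) * (q : ℝ) ^ (-2 : ℝ) := by
  obtain ⟨s, hs1, hs2, hs3, hs4⟩ := exists_eigs A hm hA
  have hq0 : (0 : ℝ) < q := by
    have : 0 < q := by omega
    exact_mod_cast this
  have hq1 : (1 : ℝ) ≤ q := by
    have : 1 ≤ q := by omega
    exact_mod_cast this
  have hq2 : (2 : ℝ) ≤ q := by exact_mod_cast hq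
  have hqc : (q : ℂ) ≠ 0 := by
    have : q ≠ 0 := by omega
    exact_mod_cast this
  set z : ℂ := (q : ℂ) ^ (-(w + 1 + τ * I + ε : ℂ)) with hz
  have hzn : ‖z‖ = (q : ℝ) ^ (-(w + 1 + ε)) := by
    rw [hz, Complex.norm_natCast_cpow_of_pos (by omega)]
    congr 1
    simp
  have hx : ∀ j, ∀ l ∈ s, ‖α j * z * l‖ = (q : ℝ) ^ (-(1 + ε)) := by
    intro j l hl
    rw [norm_mul, norm_mul, hs2 l hl, mul_one, hα, hzn, ← Real.rpow_add hq0]
    congr 1
    ring
  have hsmall : (q : ℝ) ^ (-(1 + ε)) ≤ 1 / 2 := by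
    calc (q : ℝ) ^ (-(1 + ε)) ≤ (q : ℝ) ^ (-1 : ℝ) :=
          Real.rpow_le_rpow_of_exponent_le hq1 (by linarith)
      _ = (q : ℝ)⁻¹ := Real.rpow_neg_one _
      _ ≤ 1 / 2 := by
          rw [one_div]
          exact inv_anti₀ (by norm_num) hq2
  have hne : ∀ j, ∀ l ∈ s, 1 - α j * z * l ≠ 0 := by
    intro j l hl h
    have h1 : ‖α j * z * l‖ = 1 := by
      have : α j * z * l = 1 := by linear_combination -h
      rw [this, norm_one]
    rw [hx j l hl] at h1
    linarith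
  refine ⟨∑ j, (s.map fun l => -Complex.log (1 - α j * z * l)).sum, ?_, ?_⟩
  · rw [Complex.exp_sum, ← Finset.prod_inv_distrib]
    refine Finset.prod_congr rfl fun j _ => ?_
    rw [hs4, Complex.exp_multiset_sum, Multiset.map_map, ← Multiset.prod_map_inv]
    refine congrArg _ (Multiset.map_congr rfl fun l hl => ?_)
    simp only [Function.comp_apply]
    rw [Complex.exp_neg, Complex.exp_log (hne j l hl)]
  · have h1 : ((∑ j, α j) * (q : ℂ) ^ (-(w : ℂ)) *
        ((q : ℂ) ^ (-(τ * I)) * LinearMap.trace ℂ _ A)) * ((q : ℝ) ^ (-(1 + ε)) : ℝ) =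
        ∑ j, (s.map fun l => α j * z * l).sum := by
      have h2 : z = (q : ℂ) ^ (-(w : ℂ)) * (q : ℂ) ^ (-(τ * I)) *
          (((q : ℝ) ^ (-(1 + ε)) : ℝ) : ℂ) := by
        rw [hz, Complex.ofReal_cpow hq0.le]
        push_cast
        rw [← Complex.cpow_add _ _ hqc, ← Complex.cpow_add _ _ hqc]
        congr 1
        ring
      have h3 : ∀ j, (s.map fun l => α j * z * l).sum = α j * z * s.sum := by
        intro j
        rw [Multiset.sum_map_mul_left, Multiset.map_id']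
      simp only [h3]
      rw [← Finset.sum_mul, ← Finset.sum_mul, hs3, h2]
      ring
    rw [h1, ← Finset.sum_sub_distrib]
    have h4 : ∀ j, ‖(s.map fun l => -Complex.log (1 - α j * z * l)).sum -
        (s.map fun l => α j * z * l).sum‖ ≤ n * (q : ℝ) ^ (-2 : ℝ) := by
      intro j
      rw [← Multiset.sum_map_sub]
      have h5 : ‖(s.map fun l => -Complex.log (1 - α j * z * l) - α j * z * l).sum‖ ≤
          ((s.map fun l => -Complex.log (1 - α j * z * l) - α j * z * l).map fun x => ‖x‖).sum :=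
        norm_multiset_sum_le _
      refine h5.trans ?_
      rw [Multiset.map_map]
      have h6 : ∀ x ∈ s.map ((fun x => ‖x‖) ∘ fun l => -Complex.log (1 - α j * z * l) -
          α j * z * l), x ≤ (q : ℝ) ^ (-2 : ℝ) := by
        intro x hx'
        rw [Multiset.mem_map] at hx'
        obtain ⟨l, hl, rfl⟩ := hx'
        simp only [Function.comp_apply]
        have h7 : ‖α j * z * l‖ ≤ 1 / 2 := (hx j l hl).le.trans hsmall
        refine (norm_neg_log_sub_le h7).trans ?_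
        rw [hx j l hl]
        calc ((q : ℝ) ^ (-(1 + ε))) ^ 2 ≤ ((q : ℝ) ^ (-1 : ℝ)) ^ 2 := by
              refine pow_le_pow_left₀ (by positivity) ?_ 2
              exact Real.rpow_le_rpow_of_exponent_le hq1 (by linarith)
          _ = (q : ℝ) ^ (-2 : ℝ) := by
              rw [← Real.rpow_natCast, ← Real.rpow_mul hq0.le]
              norm_num
      refine (Multiset.sum_le_card_nsmul _ _ h6).trans ?_
      rw [Multiset.card_map, hs1, nsmul_eq_mul]
    calc ‖∑ j, ((s.map fun l => -Complex.log (1 - α j * z * l)).sum -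
          (s.map fun l => α j * z * l).sum)‖
        ≤ ∑ j : Fin b, (n : ℝ) * (q : ℝ) ^ (-2 : ℝ) :=
          (norm_sum_le _ _).trans (Finset.sum_le_sum fun j _ => h4 j)
      _ = (b * n : ℝ) * (q : ℝ) ^ (-2 : ℝ) := by
          rw [Finset.sum_const, Finset.card_univ, Fintype.card_fin, nsmul_eq_mul]
          ring

end Pool.Agent.W540.BE
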