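import Pool.Agent.W540.BE.Freq
import Pool.Agent.W540.BE.Local

set_option autoImplicit false

/-!
# The Bessel inequality on the edge for all Artin twists
-/

namespace Pool.Agent.W540.BE

open Complex Filter Topology ComplexConjugate Pool.Agent.H341R2 NumberField IsDedekindDomain
  Pool.Agent.W401.Cheb Polynomial

theorem EP_finsupp {P : Type*} {N : P → ℕ} (hN : NormSys N) (S : Finset P) (r : P → ℝ)
    (hr : ∀ p, p ∉ S → r p = 0)
    (b : ℝ) (hb : ∀ p, |r p| ≤ b) {ε : ℝ} (hε : 0 < ε) : |EP N ε r| ≤ S.card * b := by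
  rw [EP, tsum_eq_sum (s := S) fun p hp => by rw [hr p hp, zero_mul]]
  refine (Finset.abs_sum_le_sum_abs _ _).trans ?_
  rw [← nsmul_eq_mul]
  refine Finset.sum_le_card_nsmul _ _ _ fun p _ => ?_
  have hp1 : (1 : ℝ) ≤ N p := by
    have := hN.two_le p
    exact_mod_cast (by omega : 1 ≤ N p)
  have h1 : (N p : ℝ) ^ (-(1 + ε)) ≤ 1 := Real.rpow_le_one_of_one_le_of_nonpos hp1 (by linarith)
  rw [abs_mul, abs_of_nonneg (wP_nonneg ε p)]
  calc |r p| * (N p : ℝ) ^ (-(1 + ε)) ≤ |r p| * 1 :=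
        mul_le_mul_of_nonneg_left h1 (abs_nonneg _)
    _ ≤ b := by rw [mul_one]; exact hb p

theorem conj_cpow_I {q : ℕ} (hq : 0 < q) (τ : ℝ) :
    conj ((q : ℂ) ^ (-(τ * I))) = (q : ℂ) ^ (τ * I) := by
  have hqc : (q : ℂ) ≠ 0 := by exact_mod_cast hq.ne'
  have hl : Complex.log (q : ℂ) = ((Real.log q : ℝ) : ℂ) := Complex.natCast_log.symm
  rw [Complex.cpow_def_of_ne_zero hqc, Complex.cpow_def_of_ne_zero hqc, ← Complex.exp_conj, hl,
    map_mul, Complex.conj_ofReal, map_neg, map_mul, Complex.conj_ofReal, Complex.conj_I]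
  congr 1
  ring

theorem norm_cpow_I {q : ℕ} (hq : 0 < q) (τ : ℝ) : ‖(q : ℂ) ^ (-(τ * I))‖ = 1 := by
  rw [Complex.norm_natCast_cpow_of_pos hq]
  simp

/-- asymptotic number of primes -/
theorem EP_one (F : Type) [Field F] [NumberField F] :
    Tendsto (fun ε : ℝ => (EP (nm F) ε fun _ => 1) / lam ε) (𝓝[>] 0) (𝓝 1) := by
  have hU : IsOpen ((⊤ : Subgroup (GK F)) : Set (GK F)) := isOpen_univ
  haveI : Finite (GK F ⧸ (⊤ : Subgroup (GK F))) := by
    haveI : Subsingleton (GK F ⧸ (⊤ : Subgroup (GK F))) := QuotientGroup.subsingleton_quotient_top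
    infer_instance
  choose σ hσ using exists_isFrob (F := F)
  have h1 := cheb_mean (F := F) ⊤ hU (fun _ => 1) (fun _ _ => rfl) σ hσ
  have h2 : (Nat.card (GK F ⧸ (⊤ : Subgroup (GK F))) : ℂ)⁻¹ *
      ∑ᶠ _ : GK F ⧸ (⊤ : Subgroup (GK F)), (1 : ℂ) = ((1 : ℝ) : ℂ) := by
    classical
    letI : Fintype (GK F ⧸ (⊤ : Subgroup (GK F))) := Fintype.ofFinite _
    have hne : (Nat.card (GK F ⧸ (⊤ : Subgroup (GK F))) : ℂ) ≠ 0 := by
      have : Nat.card (GK F ⧸ (⊤ : Subgroup (GK F))) ≠ 0 := Nat.card_pos.ne'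
      exact_mod_cast this
    rw [finsum_eq_sum_of_fintype, Finset.sum_const, Finset.card_univ, nsmul_eq_mul, mul_one,
      ← Nat.card_eq_fintype_card, inv_mul_cancel₀ hne]
    simp
  rw [h2] at h1
  have h3 := mean_edge (g := fun _ => 1) (B := 1) (by simp) 1 h1 0
  rw [if_pos rfl] at h3
  refine h3.congr fun ε => ?_
  congr 2
  funext v
  simp

/-- **Bessel's inequality on the edge, for all Artin twists over a number field.** -/
theorem core (F : Type) [Field F] [NumberField F] (b : ℕ) (w : ℝ)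
    (α : HeightOneSpectrum (𝓞 F) → Fin b → ℂ)
    (hα : ∀ᶠ v in cofinite, ∀ j, ‖α v j‖ = (nm F v : ℝ) ^ w)
    {κ : Type*} (K : Finset κ) (n : κ → ℕ)
    (ρ : ∀ k, Representation ℂ (GK F) (Fin (n k) → ℂ))
    (hopen : ∀ k ∈ K, ∃ U : Subgroup (GK F), IsOpen (U : Set (GK F)) ∧ ∀ u ∈ U, ρ k u = 1)
    (hirr : ∀ k ∈ K, (ρ k).IsIrreducible) (τ : κ → ℝ)
    (hne : ∀ k ∈ K, ∀ l ∈ K, k ≠ l → τ k = τ l → IsEmpty ((ρ k).Equiv (ρ l)))
    (B : κ → HeightOneSpectrum (𝓞 F) → ℂ[X])
    (hB : ∀ k ∈ K, ∀ᶠ v in cofinite, ∀ σ : GK F, IsFrob v σ → ∀ z : ℂ,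
      (B k v).eval z = ∏ j, LinearMap.det (1 - (α v j * z) • ρ k σ⁻¹))
    (hB0 : ∀ k ∈ K, ∀ v, (B k v).eval (((nm F v : ℕ) : ℂ) ^ (-(w + 1 + τ k * I : ℂ))) ≠ 0)
    (Λ : κ → ℂ → ℂ)
    (hΛ : ∀ k ∈ K, MeromorphicAt (Λ k) (w + 1 + τ k * I) ∧
      ∀ᶠ s in 𝓝 (w + 1 + τ k * I : ℂ), w + 1 < s.re →
        Λ k s = ∏' v, ((B k v).eval (((nm F v : ℕ) : ℂ) ^ (-s)))⁻¹) :
    ∃ m : κ → ℤ, (∀ k ∈ K, meromorphicOrderAt (Λ k) (w + 1 + τ k * I) = m k) ∧
      ∑ k ∈ K, (m k) ^ 2 ≤ ((b ^ 2 : ℕ) : ℤ) := by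
  classical
  -- a common open normal subgroup
  set Φ : GK F →* (∀ k : K, Module.End ℂ (Fin (n k) → ℂ)) := MonoidHom.pi fun k : K => ρ k with hΦ
  set U : Subgroup (GK F) := Φ.ker with hU
  have hUmem : ∀ g : GK F, g ∈ U ↔ ∀ k ∈ K, ρ k g = 1 := by
    intro g
    rw [hU, MonoidHom.mem_ker, funext_iff]
    exact ⟨fun h k hk => h ⟨k, hk⟩, fun h k => h k.1 k.2⟩
  have hkeropen : ∀ k ∈ K, IsOpen {g : GK F | ρ k g = 1} := by
    intro k hk
    obtain ⟨V, hV, hVρ⟩ := hopen k hk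
    have h1 : V ≤ (ρ k).ker := fun u hu => hVρ u hu
    exact Subgroup.isOpen_mono h1 hV
  have hUopen : IsOpen (U : Set (GK F)) := by
    have : (U : Set (GK F)) = ⋂ k ∈ K, {g : GK F | ρ k g = 1} := by
      ext g
      rw [SetLike.mem_coe, hUmem, Set.mem_iInter₂]
      rfl
    rw [this]
    exact isOpen_biInter_finset hkeropen
  haveI hfinQ : Finite (GK F ⧸ U) := Subgroup.quotient_finite_of_isOpen U hUopen
  have hUρ : ∀ k ∈ K, ∀ u ∈ U, ρ k u = 1 := fun k hk u hu => (hUmem u).1 hu k hk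
  choose σ hσ using exists_isFrob (F := F)
  have hN : NormSys (nm F) := normSys
  have hpos : ∀ v, 0 < nm F v := fun v => by
    have := two_le_nm v
    omega
  obtain ⟨p0⟩ : Nonempty (HeightOneSpectrum (𝓞 F)) := by
    obtain ⟨M, hM⟩ := Ideal.exists_maximal (𝓞 F)
    exact ⟨⟨M, hM.isPrime, Ring.ne_bot_of_isMaximal_of_not_isField hM
      (RingOfIntegers.not_isField F)⟩⟩
  -- the vectors
  set t : HeightOneSpectrum (𝓞 F) → ℂ := fun v =>
    if ∀ j, ‖α v j‖ = (nm F v : ℝ) ^ w then (∑ j, α v j) * ((nm F v : ℕ) : ℂ) ^ (-(w : ℂ)) else 0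
    with ht
  have htb : ∀ v, ‖t v‖ ≤ b := by
    intro v
    rw [ht]
    simp only
    split_ifs with h
    · rw [norm_mul, Complex.norm_natCast_cpow_of_pos (hpos v)]
      have h1 : ‖∑ j, α v j‖ ≤ b * (nm F v : ℝ) ^ w := by
        refine (norm_sum_le _ _).trans ?_
        rw [Finset.sum_congr rfl fun j _ => h j, Finset.sum_const, Finset.card_univ,
          Fintype.card_fin, nsmul_eq_mul]
      have h2 : (nm F v : ℝ) ^ w * (nm F v : ℝ) ^ (-(w : ℂ)).re = 1 := by
        have h0 : (0 : ℝ) < nm F v := by exact_mod_cast hpos v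
        rw [← Real.rpow_add h0]
        simp
      calc ‖∑ j, α v j‖ * (nm F v : ℝ) ^ (-(w : ℂ)).re
          ≤ b * (nm F v : ℝ) ^ w * (nm F v : ℝ) ^ (-(w : ℂ)).re :=
            mul_le_mul_of_nonneg_right h1 (by positivity)
        _ = b := by rw [mul_assoc, h2, mul_one]
    · rw [norm_zero]
      positivity
  set vv : κ → HeightOneSpectrum (𝓞 F) → ℂ := fun k v =>
    if k ∈ K then conj (((nm F v : ℕ) : ℂ) ^ (-(τ k * I)) * (ρ k).character (σ v)⁻¹) else 0
    with hvv
  have hvvb : ∀ k v, ‖vv k v‖ ≤ n k := by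
    intro k v
    rw [hvv]
    simp only
    split_ifs with h
    · rw [Complex.norm_conj, norm_mul, norm_cpow_I (hpos v), one_mul]
      exact norm_char_le U (ρ k) (hUρ k h) _
    · rw [norm_zero]
      positivity
  -- orthonormality
  have horth0 : ∀ k ∈ K, ∀ l ∈ K,
      Tendsto (fun ε : ℝ => (EP (nm F) ε fun v => (vv k v * conj (vv l v)).re) / lam ε) (𝓝[>] 0)
        (𝓝 (if τ l - τ k = 0 then (if Nonempty ((ρ k).Equiv (ρ l)) then 1 else 0) else 0)) := by
    intro k hk l hl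
    set ψ : GK F ⧸ U → ℂ := fun q => (qrep U (ρ k) (hUρ k hk)).character q *
      (qrep U (ρ l) (hUρ l hl)).character q⁻¹ with hψ
    have hψc : ∀ a g, ψ (g * a * g⁻¹) = ψ a := by
      intro a g
      rw [hψ]
      simp only
      have h1 : (g * a * g⁻¹)⁻¹ = g * a⁻¹ * g⁻¹ := by group
      rw [h1, Representation.char_conj, Representation.char_conj]
    have h1 := cheb_mean (F := F) U hUopen ψ hψc σ hσ
    have h2 := ortho U (ρ k) (hUρ k hk) (hirr k hk) (ρ l) (hUρ l hl) (hirr l hl)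
    rw [h2] at h1
    have h3 : ((if Nonempty ((ρ k).Equiv (ρ l)) then (1 : ℂ) else 0)) =
        (((if Nonempty ((ρ k).Equiv (ρ l)) then 1 else 0 : ℝ)) : ℂ) := by
      split_ifs <;> simp
    rw [h3] at h1
    have hψv : ∀ v, ψ (QuotientGroup.mk (σ v)) =
        (ρ k).character (σ v) * (ρ l).character (σ v)⁻¹ := fun v => rfl
    have h4 := mean_edge (g := fun v => ψ (QuotientGroup.mk (σ v))) (B := (n k : ℝ) * n l)
      (by
        intro v
        rw [hψv, norm_mul]
        exact mul_le_mul (norm_char_le U (ρ k) (hUρ k hk) _) (norm_char_le U (ρ l) (hUρ l hl) _)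
          (norm_nonneg _) (by positivity)) _ h1 (τ l - τ k)
    refine h4.congr fun ε => ?_
    congr 2
    funext v
    congr 1
    rw [hψv, hvv]
    simp only
    rw [if_pos hk, if_pos hl, Complex.conj_conj, map_mul, conj_cpow_I (hpos v),
      char_conj_eq U (ρ k) (hUρ k hk)]
    have hvc : ((nm F v : ℕ) : ℂ) ≠ 0 := by
      have := hpos v
      exact_mod_cast this.ne'
    have h5 : ((nm F v : ℕ) : ℂ) ^ (-(((τ l - τ k : ℝ) : ℂ) * I)) =
        ((nm F v : ℕ) : ℂ) ^ (τ k * I) * ((nm F v : ℕ) : ℂ) ^ (-(τ l * I)) := by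
      rw [← Complex.cpow_add _ _ hvc]
      congr 1
      push_cast
      ring
    rw [h5]
    ring
  -- the orders
  have hk1 : ∀ k, ∃ m : ℤ, k ∈ K → meromorphicOrderAt (Λ k) (w + 1 + τ k * I) = m ∧
      Tendsto (fun ε : ℝ => (EP (nm F) ε fun v => (t v * conj (vv k v)).re) / lam ε) (𝓝[>] 0)
        (𝓝 (-(m : ℝ))) := by
    intro k
    by_cases hk : k ∈ K
    swap
    · exact ⟨0, fun h => absurd h hk⟩
    set Good : HeightOneSpectrum (𝓞 F) → Prop := fun v => (∀ j, ‖α v j‖ = (nm F v : ℝ) ^ w) ∧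
      ∀ σ : GK F, IsFrob v σ → ∀ z : ℂ,
        (B k v).eval z = ∏ j, LinearMap.det (1 - (α v j * z) • ρ k σ⁻¹) with hGood
    have hfin : {v | ¬ Good v}.Finite := by
      have := hα.and (hB k hk)
      rwa [Filter.eventually_cofinite] at this
    have hGex : ∀ (ε : ℝ) (v : HeightOneSpectrum (𝓞 F)), ∃ G : ℂ, 0 < ε → Good v →
        cexp G = ((B k v).eval (((nm F v : ℕ) : ℂ) ^ (-(w + 1 + τ k * I + ε : ℂ))))⁻¹ ∧
        ‖G - (t v * conj (vv k v)) * ((nm F v : ℝ) ^ (-(1 + ε)) : ℝ)‖ ≤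
          (b * n k : ℝ) * (nm F v : ℝ) ^ (-2 : ℝ) := by
      intro ε v
      by_cases h : 0 < ε ∧ Good v
      · obtain ⟨G, hG1, hG2⟩ := local_factor w (nm F v) (two_le_nm v) (α v) h.2.1
          (ρ k (σ v)⁻¹) (m := Nat.card (GK F ⧸ U)) Nat.card_pos
          (rho_pow U (ρ k) (hUρ k hk) _) (τ k) ε h.1
        refine ⟨G, fun _ _ => ⟨?_, ?_⟩⟩
        · rw [hG1, h.2.2 (σ v) (hσ v)]
        · have h1 : t v = (∑ j, α v j) * ((nm F v : ℕ) : ℂ) ^ (-(w : ℂ)) := by
            rw [ht]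
            simp only
            rw [if_pos h.2.1]
          have h2 : conj (vv k v) = ((nm F v : ℕ) : ℂ) ^ (-(τ k * I)) *
              (ρ k).character (σ v)⁻¹ := by
            rw [hvv]
            simp only
            rw [if_pos hk, Complex.conj_conj]
          rw [h1, h2]
          exact hG2
      · exact ⟨0, fun h1 h2 => absurd ⟨h1, h2⟩ h⟩
    choose G hG using hGex
    set a : HeightOneSpectrum (𝓞 F) → ℂ := fun v => if Good v then t v * conj (vv k v) else 0
      with ha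
    have hprod : ∀ v, ‖t v * conj (vv k v)‖ ≤ b * n k := by
      intro v
      rw [norm_mul, Complex.norm_conj]
      exact mul_le_mul (htb v) (hvvb k v) (norm_nonneg _) (by positivity)
    have hab : ∀ v, ‖a v‖ ≤ b * n k := by
      intro v
      rw [ha]
      simp only
      split_ifs
      · exact hprod v
      · rw [norm_zero]; positivity
    have ha0 : ∀ v, ¬ Good v → a v = 0 := by
      intro v hv
      rw [ha]
      simp only
      rw [if_neg hv]
    obtain ⟨m, hm1, C', hC'⟩ := two_sidedP hN (Good := Good) hfin (B k) (w + 1 + τ k * I)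
      (fun v _ => hB0 k hk v) a hab ha0 G (C := (b * n k : ℝ))
      (by
        intro ε hε v hv
        have h1 : a v = t v * conj (vv k v) := by
          rw [ha]
          simp only
          rw [if_pos hv]
        rw [h1]
        exact (hG ε v hε hv).2)
      (hΛ k hk).1
      (by
        have h1 := (path_tendsto' (w + 1 + τ k * I : ℂ)).eventually (hΛ k hk).2
        filter_upwards [h1, self_mem_nhdsWithin] with ε h2 h3
        have hε : (0 : ℝ) < ε := h3
        rw [h2 (by simp [hε])]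
        refine tprod_congr fun v => ?_
        split_ifs with hv
        · rw [(hG ε v hε hv).1]
        · rfl)
    refine ⟨m, fun _ => ⟨hm1, ?_⟩⟩
    -- the mean value of the coefficients
    set r : HeightOneSpectrum (𝓞 F) → ℝ := fun v => (t v * conj (vv k v)).re - (a v).re with hr
    have hr0 : ∀ v, v ∉ hfin.toFinset → r v = 0 := by
      intro v hv
      rw [Set.Finite.mem_toFinset, Set.mem_ofPred_eq, not_not] at hv
      rw [hr, ha]
      simp only
      rw [if_pos hv, sub_self]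
    have hrb : ∀ v, |r v| ≤ 2 * (b * n k) := by
      intro v
      rw [hr]
      simp only
      have h1 : |(t v * conj (vv k v)).re| ≤ b * n k := (Complex.abs_re_le_norm _).trans (hprod v)
      have h2 : |(a v).re| ≤ b * n k := (Complex.abs_re_le_norm _).trans (hab v)
      rw [abs_le] at *
      constructor <;> linarith [h1.1, h1.2, h2.1, h2.2]
    have hsplit : ∀ ε : ℝ, 0 < ε → (EP (nm F) ε fun v => (t v * conj (vv k v)).re) =
        (EP (nm F) ε fun v => (a v).re) + EP (nm F) ε r := by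
      intro ε hε
      rw [← EP_add hN hε (B := b * n k) (B' := 2 * (b * n k))
        (fun v => (Complex.abs_re_le_norm _).trans (hab v)) hrb]
      congr 1
      funext v
      rw [hr]
      ring
    have hlim0 : Tendsto (fun ε : ℝ => (C' + hfin.toFinset.card * (2 * (b * n k))) / lam ε)
        (𝓝[>] 0) (𝓝 0) := tendsto_const_nhds.div_atTop lam_tendsto
    rw [tendsto_iff_dist_tendsto_zero]
    refine squeeze_zero' (Filter.Eventually.of_forall fun _ => dist_nonneg) ?_ hlim0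
    filter_upwards [hC', self_mem_nhdsWithin, lam_tendsto.eventually_gt_atTop 0]
      with ε h1 h2 h3
    have hε : (0 : ℝ) < ε := h2
    have h4 := EP_finsupp hN hfin.toFinset r hr0 _ hrb hε
    rw [Real.dist_eq, sub_neg_eq_add]
    have h5 : (EP (nm F) ε fun v => (t v * conj (vv k v)).re) / lam ε + m =
        (((EP (nm F) ε fun v => (a v).re) + m * lam ε) + EP (nm F) ε r) / lam ε := by
      rw [hsplit ε hε]
      field_simp
      ring
    rw [h5, abs_div, abs_of_pos h3]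
    exact div_le_div_of_nonneg_right ((abs_add_le _ _).trans (add_le_add h1 h4)) h3.le
  choose m hm using hk1
  refine ⟨m, fun k hk => (hm k hk).1, ?_⟩
  have hfinal := besselP hN p0 (EP_one F) K t vv (fun k => (m k : ℝ)) b htb (fun k => (n k : ℝ))
    hvvb
    (by
      intro k hk l hl hkl
      have h1 := horth0 k hk l hl
      have h2 : (if τ l - τ k = 0 then (if Nonempty ((ρ k).Equiv (ρ l)) then (1 : ℝ) else 0)
          else 0) = 0 := by
        by_cases h : τ l - τ k = 0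
        · rw [if_pos h, if_neg]
          rw [not_nonempty_iff]
          exact hne k hk l hl hkl (by linarith)
        · rw [if_neg h]
      rwa [h2] at h1)
    (by
      intro k hk
      have h1 := horth0 k hk k hk
      rwa [if_pos (sub_self _), if_pos ⟨Representation.Equiv.refl _⟩] at h1)
    (fun k hk => (hm k hk).2)
  have h1 : ((∑ k ∈ K, (m k) ^ 2 : ℤ) : ℝ) ≤ (((b ^ 2 : ℕ) : ℤ) : ℝ) := by
    push_cast
    exact hfinal
  exact_mod_cast h1

end Pool.Agent.W540.BE
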