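import Pool.Agent.H341R2.TwoSided

set_option autoImplicit false

/-!
# Euler products and mean values over a general set of primes with a norm
-/

namespace Pool.Agent.W540.BE

open Complex Filter Topology ComplexConjugate Pool.Agent.H341R2 Polynomial

/-- a set of primes with a norm: norms are at least two and `∑ N ^ r` converges for `r < -1` -/
structure NormSys {P : Type*} (N : P → ℕ) : Prop where
  two_le : ∀ v, 2 ≤ N v
  summable : ∀ r : ℝ, r < -1 → Summable fun v => (N v : ℝ) ^ r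

/-- the weighted sum `∑_v φ(v) N(v)^(-1-ε)` -/
noncomputable def EP {P : Type*} (N : P → ℕ) (ε : ℝ) (φ : P → ℝ) : ℝ :=
  ∑' v : P, φ v * (N v : ℝ) ^ (-(1 + ε))

section

variable {P : Type*} {N : P → ℕ}

theorem wP_nonneg (ε : ℝ) (p : P) : 0 ≤ (N p : ℝ) ^ (-(1 + ε)) := by positivity

theorem norm_cpowP (hN : NormSys N) (p : P) (s : ℂ) :
    ‖((N p : ℕ) : ℂ) ^ (-s)‖ = (N p : ℝ) ^ (-s.re) := by
  rw [Complex.norm_natCast_cpow_of_pos (by have := hN.two_le p; omega)]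
  simp

theorem summable_EP (hN : NormSys N) {ε : ℝ} (hε : 0 < ε) {φ : P → ℝ} {B : ℝ}
    (hφ : ∀ p, |φ p| ≤ B) : Summable fun p : P => φ p * (N p : ℝ) ^ (-(1 + ε)) := by
  refine Summable.of_norm_bounded ((hN.summable (-(1 + ε)) (by linarith)).mul_left B)
    fun p => ?_
  rw [Real.norm_eq_abs, abs_mul, abs_of_nonneg (wP_nonneg ε p)]
  exact mul_le_mul_of_nonneg_right (hφ p) (wP_nonneg ε p)

theorem EP_le (hN : NormSys N) {ε : ℝ} (hε : 0 < ε) {φ : P → ℝ} {B : ℝ} (hφ : ∀ p, |φ p| ≤ B)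
    {b : ℝ} (hb : ∀ p, φ p ≤ b) : EP N ε φ ≤ b * EP N ε fun _ => 1 := by
  rw [EP, EP, ← tsum_mul_left]
  have h1 : Summable fun p : P => (1 : ℝ) * (N p : ℝ) ^ (-(1 + ε)) := by
    simpa using hN.summable (-(1 + ε)) (by linarith)
  refine Summable.tsum_le_tsum (fun p => ?_) (summable_EP hN hε hφ) (h1.mul_left b)
  rw [one_mul]
  exact mul_le_mul_of_nonneg_right (hb p) (wP_nonneg ε p)

theorem EP_nonneg {ε : ℝ} {φ : P → ℝ} (hφ : ∀ p, 0 ≤ φ p) : 0 ≤ EP N ε φ :=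
  tsum_nonneg fun p => mul_nonneg (hφ p) (wP_nonneg ε p)

theorem EP_add (hN : NormSys N) {ε : ℝ} (hε : 0 < ε) {φ ψ : P → ℝ} {B B' : ℝ}
    (hφ : ∀ p, |φ p| ≤ B) (hψ : ∀ p, |ψ p| ≤ B') :
    EP N ε (fun p => φ p + ψ p) = EP N ε φ + EP N ε ψ := by
  rw [EP, EP, EP, ← (summable_EP hN hε hφ).tsum_add (summable_EP hN hε hψ)]
  exact tsum_congr fun p => by ring

theorem EP_const_mul {ε : ℝ} (c : ℝ) (φ : P → ℝ) :
    EP N ε (fun p => c * φ p) = c * EP N ε φ := by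
  rw [EP, EP, ← tsum_mul_left]
  exact tsum_congr fun p => by ring

theorem EP_sum (hN : NormSys N) {ε : ℝ} (hε : 0 < ε) {κ : Type*} (K : Finset κ)
    (φ : κ → P → ℝ) (B : κ → ℝ) (hφ : ∀ k ∈ K, ∀ p, |φ k p| ≤ B k) :
    EP N ε (fun p => ∑ k ∈ K, φ k p) = ∑ k ∈ K, EP N ε (φ k) := by
  simp only [EP]
  rw [← Summable.tsum_finsetSum fun k hk => summable_EP hN hε (hφ k hk)]
  exact tsum_congr fun p => by rw [Finset.sum_mul]

theorem tprod_splitP {Good : P → Prop} [DecidablePred Good]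
    (hfin : {p | ¬ Good p}.Finite) (G b : P → ℂ)
    (hsum : Summable fun p => if Good p then G p else 0) :
    ∏' p, (if Good p then cexp (G p) else b p) =
      (∏ p ∈ hfin.toFinset, b p) * cexp (∑' p, if Good p then G p else 0) := by
  have h1 := hsum.hasSum.cexp
  have h2 : HasProd (fun p => if Good p then (1 : ℂ) else b p)
      (∏ p ∈ hfin.toFinset, if Good p then (1 : ℂ) else b p) := by
    apply hasProd_prod_of_ne_finset_one
    intro p hp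
    have : Good p := by
      by_contra h
      exact hp (hfin.mem_toFinset.2 h)
    rw [if_pos this]
  have h3 := h2.mul h1
  have h4 : (fun p => (if Good p then (1 : ℂ) else b p) *
      (cexp ∘ fun p => if Good p then G p else 0) p) =
      fun p => if Good p then cexp (G p) else b p := by
    funext p
    by_cases hg : Good p <;> simp [hg]
  rw [h4] at h3
  rw [h3.tprod_eq]
  congr 1
  refine Finset.prod_congr rfl fun p hp => ?_
  rw [if_neg (hfin.mem_toFinset.1 hp)]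

theorem summable_and_boundP (hN : NormSys N) {Good : P → Prop} [DecidablePred Good] {ε : ℝ}
    (hε : 0 < ε) (G a : P → ℂ) {C K : ℝ}
    (ha : ∀ p, ‖a p‖ ≤ K) (ha0 : ∀ p, ¬ Good p → a p = 0)
    (hG : ∀ p, Good p → ‖G p - a p * ((N p : ℝ) ^ (-(1 + ε)) : ℝ)‖ ≤ C * (N p : ℝ) ^ (-2 : ℝ)) :
    (Summable fun p => if Good p then G p else 0) ∧
      |(∑' p, if Good p then G p else 0).re - EP N ε fun p => (a p).re| ≤
        |C| * ∑' p, (N p : ℝ) ^ (-2 : ℝ) := by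
  have hsa : Summable fun p : P => a p * ((N p : ℝ) ^ (-(1 + ε)) : ℝ) := by
    refine Summable.of_norm_bounded
      ((hN.summable (-(1 + ε)) (by linarith)).mul_left K) fun p => ?_
    rw [norm_mul, Complex.norm_real, Real.norm_eq_abs, abs_of_nonneg (wP_nonneg ε p)]
    exact mul_le_mul_of_nonneg_right (ha p) (wP_nonneg ε p)
  have hbd : ∀ p, ‖(if Good p then G p else 0) - a p * ((N p : ℝ) ^ (-(1 + ε)) : ℝ)‖ ≤
      |C| * (N p : ℝ) ^ (-2 : ℝ) := by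
    intro p
    split_ifs with hg
    · exact (hG p hg).trans (mul_le_mul_of_nonneg_right (le_abs_self C) (by positivity))
    · rw [ha0 p hg]
      simp
      positivity
  have hsd : Summable fun p : P =>
      (if Good p then G p else 0) - a p * ((N p : ℝ) ^ (-(1 + ε)) : ℝ) :=
    Summable.of_norm_bounded ((hN.summable (-2) (by norm_num)).mul_left |C|) hbd
  have hs : Summable fun p => if Good p then G p else 0 := by
    have := hsd.add hsa
    simpa using this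
  refine ⟨hs, ?_⟩
  have h1 : EP N ε (fun p => (a p).re) =
      (∑' p : P, a p * ((N p : ℝ) ^ (-(1 + ε)) : ℝ)).re := by
    rw [EP, Complex.re_tsum hsa]
    exact tsum_congr fun p => by rw [Complex.re_mul_ofReal]
  rw [h1, ← Complex.sub_re, ← hs.tsum_sub hsa]
  refine (Complex.abs_re_le_norm _).trans ?_
  rw [← tsum_mul_left]
  exact tsum_of_norm_bounded ((hN.summable (-2) (by norm_num)).mul_left |C|).hasSum hbd

/-- The order of a local meromorphic extension of an Euler product at a point of the edge is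
minus the mean of the (twisted, normalized) coefficients at primes. -/
theorem two_sidedP (hN : NormSys N) {Good : P → Prop} [DecidablePred Good]
    (hfin : {p | ¬ Good p}.Finite) (B : P → ℂ[X]) (ρ : ℂ)
    (hB : ∀ p, ¬ Good p → (B p).eval (((N p : ℕ) : ℂ) ^ (-ρ)) ≠ 0)
    (a : P → ℂ) {K : ℝ} (ha : ∀ p, ‖a p‖ ≤ K) (ha0 : ∀ p, ¬ Good p → a p = 0)
    (G : ℝ → P → ℂ) {C : ℝ}
    (hG : ∀ ε : ℝ, 0 < ε → ∀ p, Good p →
      ‖G ε p - a p * ((N p : ℝ) ^ (-(1 + ε)) : ℝ)‖ ≤ C * (N p : ℝ) ^ (-2 : ℝ))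
    {Λ : ℂ → ℂ} (hΛ : MeromorphicAt Λ ρ)
    (hΛL : ∀ᶠ ε : ℝ in 𝓝[>] 0, Λ (ρ + ε) = ∏' p : P, if Good p then cexp (G ε p) else
      ((B p).eval (((N p : ℕ) : ℂ) ^ (-(ρ + ε))))⁻¹) :
    ∃ m : ℤ, meromorphicOrderAt Λ ρ = m ∧
      ∃ C' : ℝ, ∀ᶠ ε : ℝ in 𝓝[>] 0, |(EP N ε fun p => (a p).re) + m * lam ε| ≤ C' := by
  classical
  set S := hfin.toFinset with hS
  have hBcont : ∀ p : P, ContinuousAt (fun s : ℂ => (B p).eval (((N p : ℕ) : ℂ) ^ (-s))) ρ := by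
    intro p
    have hpc : ((N p : ℕ) : ℂ) ≠ 0 := by
      have := hN.two_le p
      exact_mod_cast (by omega : N p ≠ 0)
    have h2 : ContinuousAt (fun s : ℂ => ((N p : ℕ) : ℂ) ^ (-s)) ρ :=
      (continuousAt_const_cpow hpc).comp continuousAt_neg
    exact (B p).continuous.continuousAt.comp h2
  have hBlog : ∀ p, ¬ Good p → ∃ Cp : ℝ, ∀ᶠ ε : ℝ in 𝓝[>] 0,
      (B p).eval (((N p : ℕ) : ℂ) ^ (-(ρ + ε))) ≠ 0 ∧
      |Real.log ‖(B p).eval (((N p : ℕ) : ℂ) ^ (-(ρ + ε)))‖| ≤ Cp := by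
    intro p hp
    have h1 : Tendsto (fun ε : ℝ => (B p).eval (((N p : ℕ) : ℂ) ^ (-(ρ + ε)))) (𝓝[>] 0)
        (𝓝 ((B p).eval (((N p : ℕ) : ℂ) ^ (-ρ)))) := (hBcont p).tendsto.comp (path_tendsto' ρ)
    have h2 := (h1.norm.log (norm_ne_zero_iff.2 (hB p hp))).abs.isBoundedUnder_le
    obtain ⟨Cp, hCp⟩ := h2
    refine ⟨Cp, ?_⟩
    filter_upwards [h1.eventually_ne (hB p hp), Filter.eventually_map.1 hCp] with ε h3 h4
    exact ⟨h3, h4⟩
  have hBlog' : ∀ p, ∃ Cp : ℝ, ¬ Good p → ∀ᶠ ε : ℝ in 𝓝[>] 0,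
      (B p).eval (((N p : ℕ) : ℂ) ^ (-(ρ + ε))) ≠ 0 ∧
      |Real.log ‖(B p).eval (((N p : ℕ) : ℂ) ^ (-(ρ + ε)))‖| ≤ Cp := by
    intro p
    by_cases hp : Good p
    · exact ⟨0, fun h => absurd hp h⟩
    · obtain ⟨Cp, hCp⟩ := hBlog p hp
      exact ⟨Cp, fun _ => hCp⟩
  choose Cb hCb using hBlog'
  have hbd : ∀ᶠ ε : ℝ in 𝓝[>] 0, ∀ p ∈ S,
      (B p).eval (((N p : ℕ) : ℂ) ^ (-(ρ + ε))) ≠ 0 ∧
      |Real.log ‖(B p).eval (((N p : ℕ) : ℂ) ^ (-(ρ + ε)))‖| ≤ Cb p := by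
    rw [Filter.eventually_all_finset]
    exact fun p hp => hCb p (hfin.mem_toFinset.1 hp)
  set K3 : ℝ := ∑' p, (N p : ℝ) ^ (-2 : ℝ) with hK3
  have hmain : ∀ᶠ ε : ℝ in 𝓝[>] 0, Λ (ρ + ε) ≠ 0 ∧
      |(EP N ε fun p => (a p).re) - Real.log ‖Λ (ρ + ε)‖| ≤ (∑ p ∈ S, Cb p) + |C| * K3 := by
    filter_upwards [hbd, hΛL, self_mem_nhdsWithin] with ε h1 h2 h3
    have hε : (0 : ℝ) < ε := h3
    obtain ⟨hsum, hbd2⟩ := summable_and_boundP hN hε (G ε) a ha ha0 (hG ε hε)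
    have h4 := tprod_splitP hfin (G ε)
      (fun p => ((B p).eval (((N p : ℕ) : ℂ) ^ (-(ρ + ε))))⁻¹) hsum
    rw [h4] at h2
    have hprod : 0 < ∏ p ∈ S, ‖(B p).eval (((N p : ℕ) : ℂ) ^ (-(ρ + ε)))‖⁻¹ :=
      Finset.prod_pos fun p hp => inv_pos.2 (norm_pos_iff.2 (h1 p hp).1)
    have hnorm : ‖Λ (ρ + ε)‖ = (∏ p ∈ S, ‖(B p).eval (((N p : ℕ) : ℂ) ^ (-(ρ + ε)))‖⁻¹) *
        Real.exp (∑' p, if Good p then G ε p else 0).re := by
      rw [h2, norm_mul, Complex.norm_exp, norm_prod]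
      simp only [norm_inv, hS]
    have hpos : 0 < ‖Λ (ρ + ε)‖ := by
      rw [hnorm]
      exact mul_pos hprod (Real.exp_pos _)
    refine ⟨norm_pos_iff.1 hpos, ?_⟩
    have hlog : Real.log ‖Λ (ρ + ε)‖ = (∑ p ∈ S,
        -Real.log ‖(B p).eval (((N p : ℕ) : ℂ) ^ (-(ρ + ε)))‖) +
          (∑' p, if Good p then G ε p else 0).re := by
      rw [hnorm, Real.log_mul hprod.ne' (Real.exp_pos _).ne', Real.log_exp, Real.log_prod]
      · congr 1
        exact Finset.sum_congr rfl fun p _ => Real.log_inv _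
      · intro p hp
        exact inv_ne_zero (norm_ne_zero_iff.2 (h1 p hp).1)
    have hC : |∑ p ∈ S, -Real.log ‖(B p).eval (((N p : ℕ) : ℂ) ^ (-(ρ + ε)))‖| ≤
        ∑ p ∈ S, Cb p := by
      refine (Finset.abs_sum_le_sum_abs _ _).trans (Finset.sum_le_sum fun p hp => ?_)
      rw [abs_neg]
      exact (h1 p hp).2
    rw [hlog]
    have h5 : (EP N ε fun p => (a p).re) - ((∑ p ∈ S,
        -Real.log ‖(B p).eval (((N p : ℕ) : ℂ) ^ (-(ρ + ε)))‖) +
          (∑' p, if Good p then G ε p else 0).re) =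
        -(∑ p ∈ S, -Real.log ‖(B p).eval (((N p : ℕ) : ℂ) ^ (-(ρ + ε)))‖) +
          -((∑' p, if Good p then G ε p else 0).re - (EP N ε fun p => (a p).re)) := by ring
    rw [h5]
    refine (abs_add_le _ _).trans (add_le_add ?_ ?_)
    · rwa [abs_neg]
    · rwa [abs_neg]
  have hfreq : ∃ᶠ z in 𝓝[≠] ρ, Λ z ≠ 0 := by
    have hpath : Tendsto (fun ε : ℝ => ρ + ε) (𝓝[>] 0) (𝓝[≠] ρ) := by
      rw [tendsto_nhdsWithin_iff]
      refine ⟨path_tendsto' ρ, ?_⟩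
      filter_upwards [self_mem_nhdsWithin] with ε hε
      have hε' : (0 : ℝ) < ε := hε
      simp only [Set.mem_compl_iff, Set.mem_singleton_iff, add_eq_left]
      exact_mod_cast hε'.ne'
    exact hpath.frequently (hmain.mono fun _ h => h.1).frequently
  have hnt : meromorphicOrderAt Λ ρ ≠ ⊤ := by
    rw [Ne, meromorphicOrderAt_eq_top_iff]
    intro h
    exact hfreq (h.mono fun z hz => not_not.2 hz)
  obtain ⟨m, hm⟩ := WithTop.ne_top_iff_exists.1 hnt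
  refine ⟨m, hm.symm, ?_⟩
  obtain ⟨C₂, hC₂⟩ := log_norm_meromorphic hΛ hm.symm
  obtain ⟨C₃, hC₃⟩ := lam_bounded
  refine ⟨(∑ p ∈ S, Cb p) + |C| * K3 + C₂ + |(m : ℝ)| * C₃, ?_⟩
  filter_upwards [hmain, hC₂, hC₃] with ε h1 h2 h3
  have h4 : (EP N ε fun p => (a p).re) + m * lam ε =
      ((EP N ε fun p => (a p).re) - Real.log ‖Λ (ρ + ε)‖) +
      (Real.log ‖Λ (ρ + ε)‖ - m * Real.log ε) + m * (lam ε + Real.log ε) := by ring
  rw [h4]
  refine (abs_add_le _ _).trans (add_le_add ((abs_add_le _ _).trans (add_le_add h1.2 h2.2)) ?_)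
  rw [abs_mul]
  exact mul_le_mul_of_nonneg_left h3 (abs_nonneg _)

end

end Pool.Agent.W540.BE
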