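import Pool.Agent.W540.BE.BesselG

set_option autoImplicit false

/-!
# The Gram inequality
-/

namespace Pool.Agent.W540.BE

open Complex Filter Topology ComplexConjugate Pool.Agent.H341R2

section

variable {P : Type*} {N : P → ℕ}

/-- Cauchy-Schwarz for the weighted sums, at a fixed `ε` -/
theorem gram_eps (hN : NormSys N) (p0 : P) {κ : Type*} (K : Finset κ) (t : P → ℂ)
    (v : κ → P → ℂ) (b : ℝ) (ht : ∀ p, ‖t p‖ ≤ b) (B : κ → ℝ) (hv : ∀ k p, ‖v k p‖ ≤ B k)
    (c : κ → ℝ) {ε : ℝ} (hε : 0 < ε) :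
    (∑ k ∈ K, c k * EP N ε fun p => (t p * conj (v k p)).re) ^ 2 ≤
      (b ^ 2 * EP N ε fun _ => 1) *
        ∑ k ∈ K, ∑ l ∈ K, (c k * c l) * EP N ε fun p => (v k p * conj (v l p)).re := by
  classical
  have hb0 : 0 ≤ b := (norm_nonneg _).trans (ht p0)
  have hB0 : ∀ k, 0 ≤ B k := fun k => (norm_nonneg _).trans (hv k p0)
  -- quadratic polynomial
  have key : ∀ x : ℝ, 0 ≤ (∑ k ∈ K, ∑ l ∈ K, (c k * c l) * EP N ε fun p =>
      (v k p * conj (v l p)).re) * (x * x) +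
      (2 * ∑ k ∈ K, c k * EP N ε fun p => (t p * conj (v k p)).re) * x +
      b ^ 2 * EP N ε fun _ => 1 := by
    intro x
    have hpt : ∀ p, ‖t p + ∑ k ∈ K, ((x * c k : ℝ) : ℂ) * v k p‖ ^ 2 =
        ‖t p‖ ^ 2 + (∑ k ∈ K, 2 * ((x * c k) * (t p * conj (v k p)).re) +
          ∑ k ∈ K, ∑ l ∈ K, ((x * c k) * (x * c l)) * (v k p * conj (v l p)).re) := by
      intro p
      have e1 : ‖t p + ∑ k ∈ K, ((x * c k : ℝ) : ℂ) * v k p‖ ^ 2 =
          ((t p + ∑ k ∈ K, ((x * c k : ℝ) : ℂ) * v k p) *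
            conj (t p + ∑ k ∈ K, ((x * c k : ℝ) : ℂ) * v k p)).re := by
        rw [Complex.mul_conj, Complex.ofReal_re, Complex.normSq_eq_norm_sq]
      have e2 : ‖t p‖ ^ 2 = (t p * conj (t p)).re := by
        rw [Complex.mul_conj, Complex.ofReal_re, Complex.normSq_eq_norm_sq]
      have e3 : ((∑ k ∈ K, ((x * c k : ℝ) : ℂ) * v k p) * conj (t p)).re =
          (t p * conj (∑ k ∈ K, ((x * c k : ℝ) : ℂ) * v k p)).re := by
        rw [← Complex.conj_re, map_mul, Complex.conj_conj, mul_comm]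
      have e4 : (t p * conj (∑ k ∈ K, ((x * c k : ℝ) : ℂ) * v k p)).re =
          ∑ k ∈ K, (x * c k) * (t p * conj (v k p)).re := by
        rw [map_sum, Finset.mul_sum, Complex.re_sum]
        refine Finset.sum_congr rfl fun k _ => ?_
        rw [map_mul, Complex.conj_ofReal, mul_left_comm, Complex.re_ofReal_mul]
      have e5 : ((∑ k ∈ K, ((x * c k : ℝ) : ℂ) * v k p) *
          conj (∑ k ∈ K, ((x * c k : ℝ) : ℂ) * v k p)).re =
          ∑ k ∈ K, ∑ l ∈ K, ((x * c k) * (x * c l)) * (v k p * conj (v l p)).re := by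
        rw [map_sum, Finset.sum_mul_sum, Complex.re_sum]
        refine Finset.sum_congr rfl fun k _ => ?_
        rw [Complex.re_sum]
        refine Finset.sum_congr rfl fun l _ => ?_
        rw [map_mul, Complex.conj_ofReal]
        have : ((x * c k : ℝ) : ℂ) * v k p * (((x * c l : ℝ) : ℂ) * conj (v l p)) =
            (((x * c k) * (x * c l) : ℝ) : ℂ) * (v k p * conj (v l p)) := by
          push_cast; ring
        rw [this, Complex.re_ofReal_mul]
      rw [e1, map_add, add_mul, mul_add, mul_add, Complex.add_re, Complex.add_re,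
        Complex.add_re, e3, e4, e5, e2, ← Finset.mul_sum]
      ring
    have hbt : ∀ p, |‖t p‖ ^ 2| ≤ b ^ 2 := by
      intro p
      rw [abs_of_nonneg (sq_nonneg _)]
      exact pow_le_pow_left₀ (norm_nonneg _) (ht p) 2
    have hb1 : ∀ k p, |(t p * conj (v k p)).re| ≤ b * B k := by
      intro k p
      refine (Complex.abs_re_le_norm _).trans ?_
      rw [norm_mul, Complex.norm_conj]
      exact mul_le_mul (ht p) (hv k p) (norm_nonneg _) hb0
    have hb2 : ∀ k l p, |(v k p * conj (v l p)).re| ≤ B k * B l := by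
      intro k l p
      refine (Complex.abs_re_le_norm _).trans ?_
      rw [norm_mul, Complex.norm_conj]
      exact mul_le_mul (hv k p) (hv l p) (norm_nonneg _) (hB0 k)
    have hb1' : ∀ k p, |2 * ((x * c k) * (t p * conj (v k p)).re)| ≤
        2 * (|x * c k| * (b * B k)) := by
      intro k p
      rw [abs_mul, abs_mul, abs_two]
      gcongr
      exact hb1 k p
    have hb2' : ∀ k l p, |(x * c k) * (x * c l) * (v k p * conj (v l p)).re| ≤
        |(x * c k) * (x * c l)| * (B k * B l) := by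
      intro k l p
      rw [abs_mul]
      gcongr
      exact hb2 k l p
    have hS2 : ∀ k p, |∑ l ∈ K, (x * c k) * (x * c l) * (v k p * conj (v l p)).re| ≤
        ∑ l ∈ K, |(x * c k) * (x * c l)| * (B k * B l) := fun k p =>
      (Finset.abs_sum_le_sum_abs _ _).trans (Finset.sum_le_sum fun l _ => hb2' k l p)
    have s1 : ∀ p, |∑ k ∈ K, 2 * ((x * c k) * (t p * conj (v k p)).re)| ≤
        ∑ k ∈ K, 2 * (|x * c k| * (b * B k)) := fun p =>
      (Finset.abs_sum_le_sum_abs _ _).trans (Finset.sum_le_sum fun k _ => hb1' k p)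
    have s2 : ∀ p, |∑ k ∈ K, ∑ l ∈ K, ((x * c k) * (x * c l)) * (v k p * conj (v l p)).re| ≤
        ∑ k ∈ K, ∑ l ∈ K, |(x * c k) * (x * c l)| * (B k * B l) := fun p =>
      (Finset.abs_sum_le_sum_abs _ _).trans (Finset.sum_le_sum fun k _ => hS2 k p)
    have hexp : EP N ε (fun p => ‖t p + ∑ k ∈ K, ((x * c k : ℝ) : ℂ) * v k p‖ ^ 2) =
        EP N ε (fun p => ‖t p‖ ^ 2) +
        (∑ k ∈ K, 2 * ((x * c k) * EP N ε fun p => (t p * conj (v k p)).re) +
          ∑ k ∈ K, ∑ l ∈ K, ((x * c k) * (x * c l)) *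
            EP N ε fun p => (v k p * conj (v l p)).re) := by
      rw [funext hpt, EP_add hN hε hbt (B' := ∑ k ∈ K, 2 * (|x * c k| * (b * B k)) +
        ∑ k ∈ K, ∑ l ∈ K, |(x * c k) * (x * c l)| * (B k * B l))
        (fun p => (abs_add_le _ _).trans (add_le_add (s1 p) (s2 p))), EP_add hN hε s1 s2,
        EP_sum hN hε K _ (fun k => 2 * (|x * c k| * (b * B k))) (fun k _ p => hb1' k p),
        EP_sum hN hε K _ (fun k => ∑ l ∈ K, |(x * c k) * (x * c l)| * (B k * B l))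
          (fun k _ p => hS2 k p)]
      congr 2
      · refine Finset.sum_congr rfl fun k _ => ?_
        rw [EP_const_mul, EP_const_mul]
      · refine Finset.sum_congr rfl fun k _ => ?_
        rw [EP_sum hN hε K _ (fun l => |(x * c k) * (x * c l)| * (B k * B l))
          (fun l _ p => hb2' k l p)]
        refine Finset.sum_congr rfl fun l _ => ?_
        rw [EP_const_mul]
    have h1 : 0 ≤ EP N ε (fun p => ‖t p + ∑ k ∈ K, ((x * c k : ℝ) : ℂ) * v k p‖ ^ 2) :=
      EP_nonneg fun p => sq_nonneg _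
    rw [hexp] at h1
    have h2 : EP N ε (fun p => ‖t p‖ ^ 2) ≤ b ^ 2 * EP N ε fun _ => 1 :=
      EP_le hN hε hbt fun p => (le_abs_self _).trans (hbt p)
    have e1 : ∑ k ∈ K, 2 * ((x * c k) * EP N ε fun p => (t p * conj (v k p)).re) =
        (2 * ∑ k ∈ K, c k * EP N ε fun p => (t p * conj (v k p)).re) * x := by
      rw [Finset.mul_sum, Finset.sum_mul]
      exact Finset.sum_congr rfl fun k _ => by ring
    have e2 : ∑ k ∈ K, ∑ l ∈ K, ((x * c k) * (x * c l)) *
        (EP N ε fun p => (v k p * conj (v l p)).re) =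
        (∑ k ∈ K, ∑ l ∈ K, (c k * c l) * EP N ε fun p => (v k p * conj (v l p)).re) *
          (x * x) := by
      rw [Finset.sum_mul]
      refine Finset.sum_congr rfl fun k _ => ?_
      rw [Finset.sum_mul]
      exact Finset.sum_congr rfl fun l _ => by ring
    rw [e1, e2] at h1
    linarith
  have h1 := discrim_le_zero key
  rw [discrim] at h1
  nlinarith

/-- **The Gram inequality at the edge**, uniformly in bounded coefficients. -/
theorem gramP (hN : NormSys N) (p0 : P)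
    (hlam : Tendsto (fun ε : ℝ => (EP N ε fun _ => 1) / lam ε) (𝓝[>] 0) (𝓝 1))
    {κ : Type*} (K : Finset κ) (t : P → ℂ)
    (v : κ → P → ℂ) (b : ℝ) (ht : ∀ p, ‖t p‖ ≤ b) (B : κ → ℝ) (hv : ∀ k p, ‖v k p‖ ≤ B k)
    (g : κ → κ → ℝ) (hg : ∀ k ∈ K, ∀ l ∈ K,
      Tendsto (fun ε : ℝ => (EP N ε fun p => (v k p * conj (v l p)).re) / lam ε) (𝓝[>] 0)
        (𝓝 (g k l)))
    (x : κ → ℝ → ℝ) (hx : ∀ k ∈ K, Tendsto (fun ε : ℝ =>
      (EP N ε fun p => (t p * conj (v k p)).re) / lam ε - x k ε) (𝓝[>] 0) (𝓝 0))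
    (C : ℝ) {η : ℝ} (hη : 0 < η) :
    ∀ᶠ ε : ℝ in 𝓝[>] 0, ∀ c : κ → ℝ, (∀ k ∈ K, |c k| ≤ C) →
      (∑ k ∈ K, c k * x k ε) ^ 2 ≤ b ^ 2 * (∑ k ∈ K, ∑ l ∈ K, (c k * c l) * g k l) + η := by
  classical
  have hb0 : 0 ≤ b := (norm_nonneg _).trans (ht p0)
  have hB0 : ∀ k, 0 ≤ B k := fun k => (norm_nonneg _).trans (hv k p0)
  set C1 : ℝ := |C| + 1 with hC1
  have hC1pos : 0 < C1 := by positivity
  set n : ℝ := (K.card : ℝ) with hn
  have hn0 : 0 ≤ n := by positivity
  -- bound for the correlations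
  set Y : ℝ := 2 * ∑ k ∈ K, b * B k with hY
  -- small parameter
  set G0 : ℝ := ∑ k ∈ K, ∑ l ∈ K, |g k l| with hG0
  have hG00 : 0 ≤ G0 := Finset.sum_nonneg fun _ _ => Finset.sum_nonneg fun _ _ => abs_nonneg _
  have hY0 : 0 ≤ Y := by
    rw [hY]
    exact mul_nonneg (by norm_num) (Finset.sum_nonneg fun k _ => mul_nonneg hb0 (hB0 k))
  -- choose δ
  obtain ⟨δ, hδ0, hδ1, hδ⟩ : ∃ δ : ℝ, 0 < δ ∧ δ ≤ 1 ∧
      δ * (b ^ 2 * (C1 ^ 2 * G0 + 2 * (C1 ^ 2 * n ^ 2)) + C1 ^ 2 * n * (2 * Y + n)) ≤ η := by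
    set D : ℝ := b ^ 2 * (C1 ^ 2 * G0 + 2 * (C1 ^ 2 * n ^ 2)) + C1 ^ 2 * n * (2 * Y + n) with hD
    have hD0 : 0 ≤ D := by positivity
    refine ⟨min 1 (η / (D + 1)), lt_min one_pos (by positivity), min_le_left _ _, ?_⟩
    calc min 1 (η / (D + 1)) * D ≤ η / (D + 1) * D :=
          mul_le_mul_of_nonneg_right (min_le_right _ _) hD0
      _ = η * (D / (D + 1)) := by ring
      _ ≤ η * 1 := by
          refine mul_le_mul_of_nonneg_left ?_ hη.le
          rw [div_le_one (by linarith)]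
          linarith
      _ = η := mul_one η
  have ev1 : ∀ᶠ ε : ℝ in 𝓝[>] 0, |(EP N ε fun _ => 1) / lam ε - 1| < δ := by
    have := (Metric.tendsto_nhds.1 hlam) δ hδ0
    simpa [Real.dist_eq] using this
  have ev2 : ∀ᶠ ε : ℝ in 𝓝[>] 0, ∀ k ∈ K, ∀ l ∈ K,
      |(EP N ε fun p => (v k p * conj (v l p)).re) / lam ε - g k l| < δ := by
    rw [Filter.eventually_all_finset]
    intro k hk
    rw [Filter.eventually_all_finset]
    intro l hl
    have := (Metric.tendsto_nhds.1 (hg k hk l hl)) δ hδ0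
    simpa [Real.dist_eq] using this
  have ev3 : ∀ᶠ ε : ℝ in 𝓝[>] 0, ∀ k ∈ K,
      |(EP N ε fun p => (t p * conj (v k p)).re) / lam ε - x k ε| < δ := by
    rw [Filter.eventually_all_finset]
    intro k hk
    have := (Metric.tendsto_nhds.1 (hx k hk)) δ hδ0
    simpa [Real.dist_eq] using this
  have hlampos : ∀ᶠ ε : ℝ in 𝓝[>] 0, 0 < lam ε := lam_tendsto.eventually_gt_atTop 0
  filter_upwards [ev1, ev2, ev3, hlampos, self_mem_nhdsWithin] with ε h1 h2 h3 h4 h5
  have hε : (0 : ℝ) < ε := h5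
  intro c hc
  have hc1 : ∀ k ∈ K, |c k| ≤ C1 := fun k hk =>
    (hc k hk).trans ((le_abs_self C).trans (by rw [hC1]; linarith))
  have hgram := gram_eps hN p0 K t v b ht B hv c hε
  set y : κ → ℝ := fun k => (EP N ε fun p => (t p * conj (v k p)).re) / lam ε with hy
  set e : κ → κ → ℝ := fun k l => (EP N ε fun p => (v k p * conj (v l p)).re) / lam ε with he
  set u : ℝ := (EP N ε fun _ => 1) / lam ε with hu
  have hgram' : (∑ k ∈ K, c k * y k) ^ 2 ≤ b ^ 2 * u * ∑ k ∈ K, ∑ l ∈ K, (c k * c l) * e k l := by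
    have e1 : ∑ k ∈ K, c k * y k =
        (∑ k ∈ K, c k * EP N ε fun p => (t p * conj (v k p)).re) / lam ε := by
      rw [Finset.sum_div]
      exact Finset.sum_congr rfl fun k _ => by rw [hy]; ring
    have e2 : ∑ k ∈ K, ∑ l ∈ K, (c k * c l) * e k l =
        (∑ k ∈ K, ∑ l ∈ K, (c k * c l) * EP N ε fun p => (v k p * conj (v l p)).re) /
          lam ε := by
      rw [Finset.sum_div]
      refine Finset.sum_congr rfl fun k _ => ?_
      rw [Finset.sum_div]
      exact Finset.sum_congr rfl fun l _ => by rw [he]; ring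
    rw [e1, e2, hu, div_pow]
    have e3 : b ^ 2 * ((EP N ε fun _ => 1) / lam ε) *
        ((∑ k ∈ K, ∑ l ∈ K, (c k * c l) * EP N ε fun p => (v k p * conj (v l p)).re) / lam ε) =
        ((b ^ 2 * EP N ε fun _ => 1) *
          ∑ k ∈ K, ∑ l ∈ K, (c k * c l) * EP N ε fun p => (v k p * conj (v l p)).re) /
          lam ε ^ 2 := by
      field_simp
    rw [e3]
    exact div_le_div_of_nonneg_right hgram (by positivity)
  -- bounds
  have hEu : 0 ≤ EP N ε fun _ => 1 := EP_nonneg fun _ => zero_le_one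
  have hu0 : 0 ≤ u := div_nonneg hEu h4.le
  have hu2 : u ≤ 2 := by
    have := (abs_lt.1 h1).2
    linarith
  have hyb : ∀ k, |y k| ≤ 2 * (b * B k) := by
    intro k
    have hb1 : ∀ p, |(t p * conj (v k p)).re| ≤ b * B k := by
      intro p
      refine (Complex.abs_re_le_norm _).trans ?_
      rw [norm_mul, Complex.norm_conj]
      exact mul_le_mul (ht p) (hv k p) (norm_nonneg _) hb0
    have h6 : |EP N ε fun p => (t p * conj (v k p)).re| ≤ (b * B k) * EP N ε fun _ => 1 := by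
      rw [abs_le]
      constructor
      · have h7 := EP_le hN hε (φ := fun p => (-1) * (t p * conj (v k p)).re) (B := b * B k)
          (fun p => by rw [abs_mul, abs_neg, abs_one, one_mul]; exact hb1 p) (b := b * B k)
          (fun p => by have := (abs_le.1 (hb1 p)).1; linarith)
        rw [EP_const_mul] at h7
        linarith
      · exact EP_le hN hε hb1 fun p => (le_abs_self _).trans (hb1 p)
    rw [hy]
    simp only
    rw [abs_div, abs_of_pos h4]
    calc |EP N ε fun p => (t p * conj (v k p)).re| / lam ε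
        ≤ ((b * B k) * EP N ε fun _ => 1) / lam ε := div_le_div_of_nonneg_right h6 h4.le
      _ = (b * B k) * u := by rw [hu]; ring
      _ ≤ (b * B k) * 2 := mul_le_mul_of_nonneg_left hu2 (mul_nonneg hb0 (hB0 k))
      _ = 2 * (b * B k) := mul_comm _ _
  have hsy : |∑ k ∈ K, c k * y k| ≤ C1 * Y := by
    refine (Finset.abs_sum_le_sum_abs _ _).trans ?_
    calc ∑ k ∈ K, |c k * y k| ≤ ∑ k ∈ K, C1 * (2 * (b * B k)) := by
          refine Finset.sum_le_sum fun k hk => ?_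
          rw [abs_mul]
          exact mul_le_mul (hc1 k hk) (hyb k) (abs_nonneg _) hC1pos.le
      _ = C1 * Y := by rw [hY, ← Finset.mul_sum, ← Finset.mul_sum]
  have hdiff : |∑ k ∈ K, c k * x k ε - ∑ k ∈ K, c k * y k| ≤ C1 * n * δ := by
    rw [← Finset.sum_sub_distrib]
    refine (Finset.abs_sum_le_sum_abs _ _).trans ?_
    calc ∑ k ∈ K, |c k * x k ε - c k * y k| ≤ ∑ k ∈ K, C1 * δ := by
          refine Finset.sum_le_sum fun k hk => ?_
          rw [← mul_sub, abs_mul]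
          refine mul_le_mul (hc1 k hk) ?_ (abs_nonneg _) hC1pos.le
          rw [abs_sub_comm]
          exact (h3 k hk).le
      _ = C1 * n * δ := by
          rw [Finset.sum_const, nsmul_eq_mul, hn]
          ring
  set Sx := ∑ k ∈ K, c k * x k ε with hSx
  set Sy := ∑ k ∈ K, c k * y k with hSy
  have hxy : Sx ^ 2 ≤ Sy ^ 2 + δ * (C1 ^ 2 * n * (2 * Y + n)) := by
    have e1 : Sx ^ 2 - Sy ^ 2 = (Sx - Sy) * (Sx - Sy) + 2 * ((Sx - Sy) * Sy) := by ring
    have e2 : (Sx - Sy) * (Sx - Sy) ≤ (C1 * n * δ) * (C1 * n * δ) := by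
      rw [← abs_mul_abs_self (Sx - Sy)]
      exact mul_le_mul hdiff hdiff (abs_nonneg _) (by positivity)
    have e3 : (Sx - Sy) * Sy ≤ (C1 * n * δ) * (C1 * Y) := by
      refine (le_abs_self _).trans ?_
      rw [abs_mul]
      exact mul_le_mul hdiff hsy (abs_nonneg _) (by positivity)
    have e4 : (C1 * n * δ) * (C1 * n * δ) ≤ δ * (C1 ^ 2 * n * n) := by
      have : δ * δ ≤ δ * 1 := mul_le_mul_of_nonneg_left hδ1 hδ0.le
      calc (C1 * n * δ) * (C1 * n * δ) = (C1 ^ 2 * n * n) * (δ * δ) := by ring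
        _ ≤ (C1 ^ 2 * n * n) * (δ * 1) := mul_le_mul_of_nonneg_left this (by positivity)
        _ = δ * (C1 ^ 2 * n * n) := by ring
    nlinarith
  -- compare the Gram forms
  set Ge := ∑ k ∈ K, ∑ l ∈ K, (c k * c l) * e k l with hGe
  set Gg := ∑ k ∈ K, ∑ l ∈ K, (c k * c l) * g k l with hGg
  have hGd : |Ge - Gg| ≤ C1 ^ 2 * n ^ 2 * δ := by
    rw [hGe, hGg, ← Finset.sum_sub_distrib]
    refine (Finset.abs_sum_le_sum_abs _ _).trans ?_
    calc ∑ k ∈ K, |∑ l ∈ K, (c k * c l) * e k l - ∑ l ∈ K, (c k * c l) * g k l|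
        ≤ ∑ k ∈ K, ∑ l ∈ K, C1 ^ 2 * δ := by
          refine Finset.sum_le_sum fun k hk => ?_
          rw [← Finset.sum_sub_distrib]
          refine (Finset.abs_sum_le_sum_abs _ _).trans (Finset.sum_le_sum fun l hl => ?_)
          rw [← mul_sub, abs_mul, abs_mul, sq]
          exact mul_le_mul (mul_le_mul (hc1 k hk) (hc1 l hl) (abs_nonneg _) hC1pos.le)
            (h2 k hk l hl).le (abs_nonneg _) (by positivity)
      _ = C1 ^ 2 * n ^ 2 * δ := by
          rw [Finset.sum_const, Finset.sum_const, nsmul_eq_mul, nsmul_eq_mul, hn]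
          ring
  have hGgb : |Gg| ≤ C1 ^ 2 * G0 := by
    rw [hGg, hG0, Finset.mul_sum]
    refine (Finset.abs_sum_le_sum_abs _ _).trans (Finset.sum_le_sum fun k hk => ?_)
    rw [Finset.mul_sum]
    refine (Finset.abs_sum_le_sum_abs _ _).trans (Finset.sum_le_sum fun l hl => ?_)
    rw [abs_mul, abs_mul, sq]
    exact mul_le_mul_of_nonneg_right
      (mul_le_mul (hc1 k hk) (hc1 l hl) (abs_nonneg _) hC1pos.le) (abs_nonneg _)
  have hfin : u * Ge ≤ Gg + δ * (C1 ^ 2 * G0 + 2 * (C1 ^ 2 * n ^ 2)) := by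
    have e1 : u * Ge = Gg + (u - 1) * Gg + u * (Ge - Gg) := by ring
    have e2 : (u - 1) * Gg ≤ δ * (C1 ^ 2 * G0) := by
      refine (le_abs_self _).trans ?_
      rw [abs_mul]
      exact mul_le_mul h1.le hGgb (abs_nonneg _) hδ0.le
    have e3 : u * (Ge - Gg) ≤ 2 * (C1 ^ 2 * n ^ 2 * δ) := by
      refine (le_abs_self _).trans ?_
      rw [abs_mul, abs_of_nonneg hu0]
      exact mul_le_mul hu2 hGd (abs_nonneg _) (by norm_num)
    rw [e1]
    linarith
  have hb2 : b ^ 2 * u * Ge ≤ b ^ 2 * Gg +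
      δ * (b ^ 2 * (C1 ^ 2 * G0 + 2 * (C1 ^ 2 * n ^ 2))) := by
    have := mul_le_mul_of_nonneg_left hfin (sq_nonneg b)
    calc b ^ 2 * u * Ge = b ^ 2 * (u * Ge) := by ring
      _ ≤ b ^ 2 * (Gg + δ * (C1 ^ 2 * G0 + 2 * (C1 ^ 2 * n ^ 2))) := this
      _ = _ := by ring
  calc Sx ^ 2 ≤ Sy ^ 2 + δ * (C1 ^ 2 * n * (2 * Y + n)) := hxy
    _ ≤ b ^ 2 * u * Ge + δ * (C1 ^ 2 * n * (2 * Y + n)) := by linarith
    _ ≤ b ^ 2 * Gg + δ * (b ^ 2 * (C1 ^ 2 * G0 + 2 * (C1 ^ 2 * n ^ 2)) +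
        C1 ^ 2 * n * (2 * Y + n)) := by
        have := hb2
        nlinarith
    _ ≤ b ^ 2 * Gg + η := by linarith

end

end Pool.Agent.W540.BE
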