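import Mathlib

set_option autoImplicit false

/-!
# Linear maps of finite order
-/

namespace Pool.Agent.W540.BE

open Polynomial ComplexConjugate Matrix ComplexOrder

theorem unit_norm {n : ℕ} (A : Module.End ℂ (Fin n → ℂ)) {m : ℕ} (hm : 0 < m)
    (hA : A ^ m = 1) {l : ℂ} (hl : A.HasEigenvalue l) : ‖l‖ = 1 := by
  obtain ⟨v, hv⟩ := hl.exists_hasEigenvector
  have h1 := hv.pow_apply m
  rw [hA, Module.End.one_apply] at h1
  have h2 : (l ^ m - 1) • v = 0 := by rw [sub_smul, one_smul, ← h1, sub_self]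
  rcases smul_eq_zero.1 h2 with h3 | h3
  · have h4 : l ^ m = 1 := by linear_combination h3
    have h5 : ‖l‖ ^ m = 1 := by rw [← norm_pow, h4, norm_one]
    exact (pow_eq_one_iff_of_nonneg (norm_nonneg _) hm.ne').1 h5
  · exact absurd h3 hv.2

theorem exists_eigs {n : ℕ} (A : Module.End ℂ (Fin n → ℂ)) {m : ℕ} (hm : 0 < m)
    (hA : A ^ m = 1) :
    ∃ s : Multiset ℂ, s.card = n ∧ (∀ l ∈ s, ‖l‖ = 1) ∧ LinearMap.trace ℂ _ A = s.sum ∧
      ∀ c : ℂ, LinearMap.det (1 - c • A) = (s.map fun l => 1 - c * l).prod := by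
  have hsp : (LinearMap.charpoly A).Splits := IsAlgClosed.splits _
  have hdeg : (LinearMap.charpoly A).natDegree = n := by
    rw [LinearMap.charpoly_natDegree]
    simp
  have hcard : (LinearMap.charpoly A).roots.card = n := by
    rw [← hsp.natDegree_eq_card_roots, hdeg]
  refine ⟨(LinearMap.charpoly A).roots, hcard, fun l hl => ?_, ?_, fun c => ?_⟩
  · refine unit_norm A hm hA ?_
    rw [Module.End.hasEigenvalue_iff_isRoot_charpoly]
    exact (Polynomial.mem_roots'.1 hl).2
  · exact Module.End.trace_eq_sum_roots_charpoly_of_splits hsp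
  · by_cases hc : c = 0
    · subst hc
      simp
    · have h1 : LinearMap.det (1 - c • A) = c ^ n * (LinearMap.charpoly A).eval c⁻¹ := by
        have h2 : (1 - c • A : Module.End ℂ (Fin n → ℂ)) = c • (algebraMap ℂ _ c⁻¹ - A) := by
          rw [smul_sub, Algebra.algebraMap_eq_smul_one, smul_smul, mul_inv_cancel₀ hc, one_smul]
        rw [h2, LinearMap.det_smul, LinearMap.eval_charpoly]
        simp
      rw [h1, hsp.eval_eq_prod_roots_of_monic (LinearMap.charpoly_monic A)]
      have h3 : ((LinearMap.charpoly A).roots.map fun l => 1 - c * l).prod =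
          ((LinearMap.charpoly A).roots.map fun l => c * (c⁻¹ - l)).prod := by
        refine congrArg _ (Multiset.map_congr rfl fun l _ => ?_)
        rw [mul_sub, mul_inv_cancel₀ hc]
      rw [h3, Multiset.prod_map_mul, Multiset.map_const', Multiset.prod_replicate, hcard]

theorem trace_conj_matrix {n : ℕ} (A B : Matrix (Fin n) (Fin n) ℂ) (hAB : A * B = 1) {k : ℕ}
    (hA : A ^ (k + 1) = 1) : conj (A.trace) = B.trace := by
  set H : Matrix (Fin n) (Fin n) ℂ := ∑ j ∈ Finset.range (k + 1), (A ^ j)ᴴ * A ^ j with hH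
  have hpos : H.PosDef := by
    rw [hH, Finset.sum_range_succ', pow_zero, conjTranspose_one, one_mul]
    refine Matrix.PosDef.posSemidef_add ?_ Matrix.PosDef.one
    refine Matrix.posSemidef_sum _ fun j _ => ?_
    exact Matrix.posSemidef_conjTranspose_mul_self _
  have hinv : Aᴴ * H * A = H := by
    have h1 : Aᴴ * H * A = ∑ j ∈ Finset.range (k + 1), (A ^ (j + 1))ᴴ * A ^ (j + 1) := by
      rw [hH, Finset.mul_sum, Finset.sum_mul]
      refine Finset.sum_congr rfl fun j _ => ?_
      have e1 : (A ^ (j + 1))ᴴ = Aᴴ * (A ^ j)ᴴ := by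
        rw [pow_succ, conjTranspose_mul]
      rw [e1, pow_succ]
      simp only [mul_assoc]
    rw [h1, Finset.sum_range_succ, hA, hH, Finset.sum_range_succ' _ k, pow_zero]
  have hunit : IsUnit H := hpos.isUnit
  have h2 : Aᴴ * H = H * B := by
    calc Aᴴ * H = Aᴴ * H * (A * B) := by rw [hAB, mul_one]
      _ = (Aᴴ * H * A) * B := by simp only [mul_assoc]
      _ = H * B := by rw [hinv]
  have h3 : Aᴴ = H * B * H⁻¹ := by
    rw [← h2, mul_assoc, Matrix.mul_nonsing_inv _ ((Matrix.isUnit_iff_isUnit_det _).1 hunit),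
      mul_one]
  have h4 : (Aᴴ).trace = B.trace := by
    rw [h3, Matrix.trace_mul_comm, ← mul_assoc,
      Matrix.nonsing_inv_mul _ ((Matrix.isUnit_iff_isUnit_det _).1 hunit), one_mul]
  rw [← h4, Matrix.trace_conjTranspose]
  rfl

theorem trace_conj {n : ℕ} (A B : Module.End ℂ (Fin n → ℂ)) (hAB : A * B = 1) {m : ℕ}
    (hm : 0 < m) (hA : A ^ m = 1) :
    conj (LinearMap.trace ℂ _ A) = LinearMap.trace ℂ _ B := by
  obtain ⟨k, rfl⟩ : ∃ k, m = k + 1 := ⟨m - 1, by omega⟩
  have h1 := trace_conj_matrix (LinearMap.toMatrix' A) (LinearMap.toMatrix' B)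
    (by rw [← LinearMap.toMatrix'_mul, hAB, LinearMap.toMatrix'_one])
    (k := k) (by
      have : LinearMap.toMatrix' (A ^ (k + 1)) = (LinearMap.toMatrix' A) ^ (k + 1) :=
        map_pow (LinearMap.toMatrixAlgEquiv') A (k + 1)
      rw [← this, hA, LinearMap.toMatrix'_one])
  have h2 : ∀ C : Module.End ℂ (Fin n → ℂ), LinearMap.trace ℂ _ C =
      (LinearMap.toMatrix' C).trace := by
    intro C
    rw [LinearMap.trace_eq_matrix_trace ℂ (Pi.basisFun ℂ (Fin n))]
    rfl
  rw [h2 A, h2 B]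
  exact h1

end Pool.Agent.W540.BE
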